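import Pool.Agent.Y36.PG.Geo

/-!
# A group with polynomial geodesic growth which is not virtually nilpotent of class two
-/

set_option autoImplicit false

namespace Pool.Agent.Y36.PG

open Finset
open scoped commutatorElement

/-- The group generated by `1 + X_0` and the rotation. -/
def GG : Subgroup Gam := Subgroup.closure (Set.range sl)

/-- The letters as elements of the group. -/
def slG (x : Bool ⊕ Bool) : GG := ⟨sl x, Subgroup.subset_closure ⟨x, rfl⟩⟩

lemma coe_val (w : List (Bool ⊕ Bool)) : ((w.map slG).prod : GG).1 = val sl w := by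
  induction w with
  | nil => rfl
  | cons x w ih =>
    rw [List.map_cons, List.prod_cons, Subgroup.coe_mul, ih, val_cons]
    rfl

lemma closure_slG : Subgroup.closure (Set.range slG) = ⊤ := by
  have h : Set.range slG = ((↑) : GG → Gam) ⁻¹' (Set.range sl) := by
    ext x
    constructor
    · rintro ⟨y, rfl⟩
      exact ⟨y, rfl⟩
    · rintro ⟨y, hy⟩
      exact ⟨y, Subtype.ext hy⟩
  rw [h]
  exact Subgroup.closure_closure_coe_preimage

lemma slG_inv (x : Bool ⊕ Bool) : ∃ y, (slG x)⁻¹ = slG y := by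
  rcases x with s | s
  · refine ⟨.inl (!s), ?_⟩
    rw [inv_eq_iff_mul_eq_one]
    exact Subtype.ext (V_cancel s)
  · refine ⟨.inr (!s), ?_⟩
    rw [inv_eq_iff_mul_eq_one]
    apply Subtype.ext
    cases s
    · change T (-1) * T 1 = 1
      rw [T_mul_T, neg_add_cancel, T_zero]
    · change T 1 * T (-1) = 1
      rw [T_mul_T, add_neg_cancel, T_zero]

/-- The powers of the letters. -/
lemma V_pow (k : ZMod 3) (m : ℕ) : V (k, true) ^ m =
    { n := fun j => if j = k then (m : ℤ) else 0, c := fun _ => 0, d := fun _ => 0, r := 0 } := by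
  have hk : ∀ j : ZMod 3, j = k → j + 1 = k → False := by revert k; decide
  induction m with
  | zero =>
    rw [pow_zero]
    ext j <;> simp
  | succ m ih =>
    rw [pow_succ, ih]
    ext j
    · simp only [V, sgn, Gam.mul_n, sub_zero]
      split_ifs <;> simp
    · simp only [V, sgn, Gam.mul_c, sub_zero]
      by_cases h1 : j = k
      · have h2 : j + 1 ≠ k := fun h => hk j h1 h
        simp [h2]
      · simp [h1]
    · simp [V]
    · simp [V]

lemma comm_d (a b c : ℕ) :
    (⁅⁅V (0, true) ^ a, V (1, true) ^ b⁆, V (2, true) ^ c⁆).d 0 = a * b * c := by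
  have a1 : (0 : ZMod 3) + 1 = 1 := by decide
  have a2 : (1 : ZMod 3) + 1 = 2 := by decide
  have a4 : (0 : ZMod 3) + 2 = 2 := by decide
  have b1 : (1 : ZMod 3) ≠ 0 := by decide
  have b2 : (2 : ZMod 3) ≠ 0 := by decide
  have b3 : (2 : ZMod 3) ≠ 1 := by decide
  have b4 : (0 : ZMod 3) ≠ 1 := by decide
  have b5 : (0 : ZMod 3) ≠ 2 := by decide
  have b6 : (1 : ZMod 3) ≠ 2 := by decide
  rw [commutatorElement_def, commutatorElement_def, V_pow, V_pow, V_pow]
  simp [a1, a2, a4, b1, b2, b3, b4, b5, b6]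

lemma mem_GG (k : ZMod 3) : V (k, true) ∈ GG := by
  have hT : ∀ s, sl (.inr s) ∈ GG := fun s => Subgroup.subset_closure ⟨_, rfl⟩
  have hV : V (0, true) ∈ GG := Subgroup.subset_closure ⟨.inl true, rfl⟩
  have hT' : ∀ j : ZMod 3, T j ∈ GG := by
    intro j
    have h3 : ∀ d : ZMod 3, d = 0 ∨ d = 1 ∨ d = -1 := by decide
    rcases h3 j with rfl | rfl | rfl
    · rw [T_zero]; exact one_mem _
    · exact hT true
    · exact hT false
  have : V (k, true) = T k * V (0, true) * T (-k) := by
    rw [T_mul_V, mul_assoc, T_mul_T, zero_add, add_neg_cancel, T_zero, mul_one]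
  rw [this]
  exact mul_mem (mul_mem (hT' _) hV) (hT' _)

lemma not_class_two (H : Subgroup GG) (hH : H.FiniteIndex)
    (h : Subgroup.lowerCentralSeries H 2 = ⊥) : False := by
  set x : ZMod 3 → GG := fun k => ⟨V (k, true), mem_GG k⟩ with hx
  have hpow : ∀ k, ∃ m : ℕ, 0 < m ∧ x k ^ m ∈ H := by
    intro k
    obtain ⟨m, hm, -, hmem⟩ := Subgroup.exists_pow_mem_of_index_ne_zero hH.index_ne_zero (x k)
    exact ⟨m, hm, hmem⟩
  choose m hm hmem using hpow
  have h1 : ⁅⁅x 0 ^ m 0, x 1 ^ m 1⁆, x 2 ^ m 2⁆ ∈ Subgroup.lowerCentralSeries H 2 :=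
    Subgroup.commutator_mem_commutator
      (Subgroup.commutator_mem_commutator (hmem 0) (hmem 1)) (hmem 2)
  rw [h, Subgroup.mem_bot] at h1
  have h2 := congrArg (fun y : GG => (y : Gam)) h1
  have h3 : (⁅⁅V (0, true) ^ m 0, V (1, true) ^ m 1⁆, V (2, true) ^ m 2⁆ : Gam) = 1 := h2
  have h4 := congrArg (fun y : Gam => y.d 0) h3
  simp only [comm_d] at h4
  have h5 : (0 : ℤ) < m 0 * m 1 * m 2 := by
    have := hm 0
    have := hm 1
    have := hm 2
    positivity
  rw [h4] at h5
  simp at h5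

end Pool.Agent.Y36.PG
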