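import Mathlib

/-!
# Words which are concatenations of boundedly many constant blocks
-/

set_option autoImplicit false

namespace Pool.Agent.Y36.PG

variable {α β : Type*}

/-- The word spelled by a list of blocks. -/
def flat (B : List (α × ℕ)) : List α := B.flatMap (fun p => List.replicate p.2 p.1)

@[simp] lemma flat_nil : flat ([] : List (α × ℕ)) = [] := rfl

@[simp] lemma flat_cons (p : α × ℕ) (B : List (α × ℕ)) :
    flat (p :: B) = List.replicate p.2 p.1 ++ flat B := by
  simp [flat]

@[simp] lemma flat_append (B B' : List (α × ℕ)) : flat (B ++ B') = flat B ++ flat B' := by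
  simp [flat]

/-- `W` is a concatenation of at most `K` constant blocks. -/
def Blk (W : List α) (K : ℕ) : Prop := ∃ B : List (α × ℕ), flat B = W ∧ B.length ≤ K

lemma Blk.mono {W : List α} {K L : ℕ} (h : Blk W K) (hKL : K ≤ L) : Blk W L := by
  obtain ⟨B, hB, hl⟩ := h
  exact ⟨B, hB, hl.trans hKL⟩

lemma Blk.append {W W' : List α} {K L : ℕ} (h : Blk W K) (h' : Blk W' L) :
    Blk (W ++ W') (K + L) := by
  obtain ⟨B, rfl, hl⟩ := h
  obtain ⟨B', rfl, hl'⟩ := h'
  exact ⟨B ++ B', by simp, by simp; omega⟩

lemma Blk.nil (K : ℕ) : Blk ([] : List α) K := ⟨[], rfl, by simp⟩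

lemma Blk.replicate (n : ℕ) (a : α) : Blk (List.replicate n a) 1 :=
  ⟨[(a, n)], by simp, by simp⟩

lemma Blk.self (W : List α) : Blk W W.length := by
  induction W with
  | nil => exact Blk.nil _
  | cons a W ih =>
    have := (Blk.replicate 1 a).append ih
    simpa [add_comm] using this

lemma Blk.map (f : α → β) {W : List α} {K : ℕ} (h : Blk W K) : Blk (W.map f) K := by
  obtain ⟨B, rfl, hl⟩ := h
  refine ⟨B.map (fun p => (f p.1, p.2)), ?_, by simpa using hl⟩
  clear hl
  induction B with
  | nil => simp
  | cons p B ih => simp [ih]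

lemma Blk.split {W : List α} {K : ℕ} (h : Blk W K) (k : ℕ) :
    ∃ K1 K2, K1 + K2 ≤ K + 1 ∧ Blk (W.take k) K1 ∧ Blk (W.drop k) K2 := by
  obtain ⟨B, rfl, hl⟩ := h
  induction B generalizing k K with
  | nil => exact ⟨0, 0, by omega, by simpa using Blk.nil 0, by simpa using Blk.nil 0⟩
  | cons p B ih =>
    simp only [List.length_cons] at hl
    by_cases hk : k ≤ p.2
    · refine ⟨1, K, by omega, ?_, ?_⟩
      · have : (flat (p :: B)).take k = List.replicate k p.1 := by
          simp [List.take_append, List.take_replicate, hk, Nat.sub_eq_zero_of_le hk]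
        rw [this]
        exact Blk.replicate _ _
      · refine ⟨(p.1, p.2 - k) :: B, ?_, by simpa using hl⟩
        simp [List.drop_append, List.drop_replicate, Nat.sub_eq_zero_of_le hk]
    · push Not at hk
      obtain ⟨K1, K2, h12, h1, h2⟩ := ih (K := B.length) (k - p.2) le_rfl
      refine ⟨1 + K1, K2, by omega, ?_, ?_⟩
      · have : (flat (p :: B)).take k = List.replicate p.2 p.1 ++ (flat B).take (k - p.2) := by
          simp [List.take_append, List.take_replicate, hk.le]
        rw [this]
        exact (Blk.replicate _ _).append h1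
      · have : (flat (p :: B)).drop k = (flat B).drop (k - p.2) := by
          simp [List.drop_append, List.drop_replicate, Nat.sub_eq_zero_of_le hk.le]
        rw [this]
        exact h2

lemma Blk.insert {W X : List α} {K L : ℕ} (hW : Blk W K) (hX : Blk X L) (k : ℕ) :
    Blk (W.take k ++ X ++ W.drop k) (K + L + 1) := by
  obtain ⟨K1, K2, h12, h1, h2⟩ := hW.split k
  exact ((h1.append hX).append h2).mono (by omega)

end Pool.Agent.Y36.PG
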