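import Mathlib

/-!
# Carathéodory's theorem for cones, and a rounding lemma
-/

set_option autoImplicit false

namespace Pool.Agent.Y36.PG

open Finset Module

/-- Carathéodory's theorem for cones, for families. -/
theorem cone_caratheodory {ι V : Type*} [DecidableEq ι] [AddCommGroup V] [Module ℝ V]
    [Module.Finite ℝ V] (w : ι → V) (s : Finset ι) :
    ∀ c : ι → ℝ, (∀ i ∈ s, 0 ≤ c i) →
      ∃ T ⊆ s, T.card ≤ finrank ℝ V ∧ ∃ c' : ι → ℝ, (∀ i ∈ T, 0 ≤ c' i) ∧
        ∑ i ∈ T, c' i • w i = ∑ i ∈ s, c i • w i := by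
  induction s using Finset.strongInduction with
  | H s ih =>
    intro c hc
    by_cases hcard : s.card ≤ finrank ℝ V
    · exact ⟨s, Subset.rfl, hcard, c, hc, rfl⟩
    push Not at hcard
    -- a linear relation
    have hdep : ¬ LinearIndependent ℝ (fun i : s => w i) := by
      intro hli
      have := hli.fintype_card_le_finrank
      simp at this
      omega
    rw [Fintype.not_linearIndependent_iff] at hdep
    obtain ⟨g₀, hg₀, i₀, hi₀⟩ := hdep
    -- extend to ι and make one coefficient positive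
    obtain ⟨g, hg, i₁, hi₁, hpos⟩ : ∃ g : ι → ℝ, ∑ i ∈ s, g i • w i = 0 ∧ ∃ i ∈ s, 0 < g i := by
      have key : ∀ g₀ : s → ℝ, ∑ i, g₀ i • w i = 0 → (∃ i, 0 < g₀ i) →
          ∃ g : ι → ℝ, ∑ i ∈ s, g i • w i = 0 ∧ ∃ i ∈ s, 0 < g i := by
        intro g₀ hg₀ hi
        obtain ⟨i, hi⟩ := hi
        refine ⟨fun j => if h : j ∈ s then g₀ ⟨j, h⟩ else 0, ?_, i, i.2, by simpa using hi⟩
        rw [← hg₀, ← Finset.sum_coe_sort s]
        refine Finset.sum_congr rfl fun j _ => ?_
        simp
      rcases lt_or_gt_of_ne hi₀ with h | h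
      · exact key (fun i => - g₀ i) (by simp only [neg_smul, Finset.sum_neg_distrib, hg₀, neg_zero])
          ⟨i₀, by simpa using h⟩
      · exact key g₀ hg₀ ⟨i₀, h⟩
    -- minimal ratio
    obtain ⟨k, hk, hmin⟩ := Finset.exists_min_image (s.filter (fun i => 0 < g i))
      (fun i => c i / g i) ⟨i₁, by simp [hi₁, hpos]⟩
    simp only [mem_filter] at hk hmin
    set θ := c k / g k with hθ
    have hθ0 : 0 ≤ θ := div_nonneg (hc k hk.1) hk.2.le
    obtain ⟨T, hT, hTc, c', hc', hsum⟩ := ih (s.erase k) (Finset.erase_ssubset hk.1)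
      (fun i => c i - θ * g i) (by
        intro i hi
        have hi' := Finset.mem_of_mem_erase hi
        rcases lt_or_ge 0 (g i) with h | h
        · have := hmin i ⟨hi', h⟩
          rw [le_div_iff₀ h] at this
          linarith
        · have := hc i hi'
          nlinarith)
    refine ⟨T, hT.trans (Finset.erase_subset _ _), hTc, c', hc', ?_⟩
    rw [hsum, ← Finset.add_sum_erase s (fun i => c i • w i) hk.1]
    have h2 : ∑ i ∈ s.erase k, (θ * g i) • w i = - ((θ * g k) • w k) := by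
      have := Finset.add_sum_erase s (fun i => (θ * g i) • w i) hk.1
      have h3 : ∑ i ∈ s, (θ * g i) • w i = 0 := by
        simp_rw [mul_smul]
        rw [← Finset.smul_sum, hg, smul_zero]
      rw [h3] at this
      exact eq_neg_of_add_eq_zero_right this
    simp_rw [sub_smul]
    rw [Finset.sum_sub_distrib, h2]
    have : θ * g k = c k := by
      rw [hθ, div_mul_cancel₀ _ hk.2.ne']
    rw [this]
    abel

/-- An integral combination is, up to a bounded fractional part, an integral combination with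
boundedly many terms and no larger cost. -/
theorem rounding {V : Type*} [AddCommGroup V] [Module ℝ V] [Module.Finite ℝ V]
    (s : Finset ℕ) (u : ℕ → V) (a : ℕ → ℤ) :
    ∃ T ⊆ s, T.card ≤ finrank ℝ V + 1 ∧ ∃ (a' : ℕ → ℤ) (f : ℕ → ℝ), (∀ k, |f k| ≤ 1) ∧
      ∑ k ∈ T, |a' k| ≤ ∑ k ∈ s, |a k| ∧
      ∑ k ∈ s, (a k : ℝ) • u k = ∑ k ∈ T, ((a' k : ℝ) + f k) • u k := by
  obtain ⟨T, hT, hTc, c', hc', hsum⟩ := cone_caratheodory (V := V × ℝ)
    (fun k => ((SignType.sign (a k) : ℝ) • u k, (1 : ℝ))) s (fun k => |(a k : ℝ)|)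
    (fun _ _ => abs_nonneg _)
  refine ⟨T, hT, by simpa using hTc, fun k => (SignType.sign (a k) : ℤ) * ⌊c' k⌋,
    fun k => (SignType.sign (a k) : ℝ) * Int.fract (c' k), ?_, ?_, ?_⟩
  · intro k
    rw [abs_mul, abs_of_nonneg (Int.fract_nonneg (c' k))]
    have h1 : |(SignType.sign (a k) : ℝ)| ≤ 1 := by
      rcases lt_trichotomy (a k) 0 with h | h | h <;> simp [h]
    have h2 := (Int.fract_lt_one (c' k)).le
    have h3 := Int.fract_nonneg (c' k)
    nlinarith [abs_nonneg (SignType.sign (a k) : ℝ)]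
  · have h2 := congrArg Prod.snd hsum
    simp only [Prod.smul_mk, Prod.snd_sum, smul_eq_mul, mul_one] at h2
    have h3 : ∀ k ∈ T, |(SignType.sign (a k) : ℤ) * ⌊c' k⌋| ≤ ⌊c' k⌋ := by
      intro k hk
      have h0 : 0 ≤ ⌊c' k⌋ := Int.floor_nonneg.2 (hc' k hk)
      rw [abs_mul, abs_of_nonneg h0]
      have h1 : |(SignType.sign (a k) : ℤ)| ≤ 1 := by
        rcases lt_trichotomy (a k) 0 with h | h | h <;> simp [h]
      nlinarith
    refine (Finset.sum_le_sum h3).trans ?_
    have : ((∑ k ∈ T, ⌊c' k⌋ : ℤ) : ℝ) ≤ ((∑ k ∈ s, |a k| : ℤ) : ℝ) := by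
      push_cast
      rw [← h2]
      exact Finset.sum_le_sum fun k _ => Int.floor_le _
    exact_mod_cast this
  · have h1 := congrArg Prod.fst hsum
    simp only [Prod.smul_mk, Prod.fst_sum, smul_smul] at h1
    have e1 : ∀ k, |(a k : ℝ)| * (SignType.sign (a k) : ℝ) = a k := by
      intro k
      rcases lt_trichotomy (a k) 0 with h | h | h
      · have : (a k : ℝ) < 0 := by exact_mod_cast h
        simp [h, abs_of_neg this]
      · simp [h]
      · have : (0 : ℝ) < a k := by exact_mod_cast h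
        simp [h, abs_of_pos this]
    have e2 : ∀ k, (((SignType.sign (a k) : ℤ) * ⌊c' k⌋ : ℤ) : ℝ) +
        (SignType.sign (a k) : ℝ) * Int.fract (c' k) = c' k * (SignType.sign (a k) : ℝ) := by
      intro k
      have := Int.floor_add_fract (c' k)
      push_cast
      linear_combination (SignType.sign (a k) : ℝ) * this
    simp_rw [e2]
    simp_rw [e1] at h1
    exact h1.symm

end Pool.Agent.Y36.PG
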