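import Pool.Agent.Y36.PG.Blk
import Pool.Agent.Y36.PG.Car

/-!
# The extension step

Let `Q` be a monoid with letters `v : α → Q` such that every word over `α` has the same value as
a word of bounded syllable length which is only boundedly longer.  If `Q` acts on an abelian group
`A` and `e ∈ A`, then, under a condition on the orbit of `e`, the same holds in the semidirect
product `A ⋊ Q` with the additional letters `e` and `-e`.
-/

set_option autoImplicit false

namespace Pool.Agent.Y36.PG

open Finset

section basic

variable {Q α : Type} [Monoid Q] (v : α → Q)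

/-- The value of a word. -/
def val (W : List α) : Q := (W.map v).prod

@[simp] lemma val_nil : val v [] = 1 := rfl

@[simp] lemma val_cons (x : α) (W : List α) : val v (x :: W) = v x * val v W := by
  simp [val]

@[simp] lemma val_append (W W' : List α) : val v (W ++ W') = val v W * val v W' := by
  simp [val]

@[simp] lemma val_replicate (n : ℕ) (x : α) : val v (List.replicate n x) = v x ^ n := by
  simp [val]

/-- The bounded syllable property. -/
def BSP : Prop := ∃ C : ℕ, ∀ W : List α, ∃ W' : List α, val v W' = val v W ∧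
  W'.length ≤ W.length + C ∧ Blk W' C

/-- The elements visited by a word. -/
def Vis (P : List α) (h : Q) : Prop := ∃ k, val v (P.take k) = h

/-- Boundedly many points of a word may be kept when we shorten it to bounded syllable length. -/
lemma sections {C₀ : ℕ} (hC : ∀ W : List α, ∃ W' : List α, val v W' = val v W ∧
    W'.length ≤ W.length + C₀ ∧ Blk W' C₀) (N : ℕ) :
    ∀ (P : List α) (T : Finset ℕ), T ⊆ range (P.length + 1) → T.card ≤ N →
      ∃ B : List (α × ℕ), val v (flat B) = val v P ∧ (flat B).length ≤ P.length + (N + 1) * C₀ ∧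
        B.length ≤ (N + 1) * C₀ ∧
        ∀ k ∈ T, ∃ l ≤ B.length, val v (flat (B.take l)) = val v (P.take k) := by
  induction N with
  | zero =>
    intro P T hT hN
    obtain ⟨W', h1, h2, B, h3, h4⟩ := hC P
    have : T = ∅ := by simpa using hN
    subst this
    refine ⟨B, by rw [h3, h1], by rw [h3]; omega, by omega, by simp⟩
  | succ N ih =>
    intro P T hT hN
    rcases T.eq_empty_or_nonempty with rfl | hne
    · obtain ⟨B, h1, h2, h3, h4⟩ := ih P ∅ (by simp) (by simp)
      exact ⟨B, h1, h2.trans (by gcongr; omega), h3.trans (by gcongr; omega), by simp⟩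
    · set k := T.max' hne with hk
      have hkT : k ∈ T := T.max'_mem hne
      have hkP : k ≤ P.length := by
        have := hT hkT
        simp at this
        omega
      obtain ⟨B, h1, h2, h3, h4⟩ := ih (P.take k) (T.erase k) (by
        intro j hj
        have hj' := Finset.mem_of_mem_erase hj
        have hjk : j ≤ k := T.le_max' j hj'
        simp only [List.length_take, mem_range]
        omega) (by rw [Finset.card_erase_of_mem hkT]; omega)
      obtain ⟨W', g1, g2, B', g3, g4⟩ := hC (P.drop k)
      refine ⟨B ++ B', ?_, ?_, ?_, ?_⟩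
      · rw [flat_append, val_append, h1, g3, g1, ← val_append, List.take_append_drop]
      · rw [flat_append, List.length_append, g3]
        simp only [List.length_take, List.length_drop] at h2 g2
        rw [show (N + 1 + 1) * C₀ = (N + 1) * C₀ + C₀ by ring]
        omega
      · rw [List.length_append, show (N + 1 + 1) * C₀ = (N + 1) * C₀ + C₀ by ring]
        omega
      · intro j hj
        by_cases hjk : j = k
        · subst hjk
          refine ⟨B.length, by simp, ?_⟩
          rw [List.take_left' rfl, h1]
        · obtain ⟨l, hl, hl'⟩ := h4 j (Finset.mem_erase.2 ⟨hjk, hj⟩)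
          refine ⟨l, by rw [List.length_append]; omega, ?_⟩
          rw [List.take_append_of_le_length hl, hl', List.take_take]
          have : j ≤ k := T.le_max' j hj
          rw [min_eq_left this]

end basic

section sd

variable {Q A : Type} [Monoid Q] [AddCommGroup A]

/-- The semidirect product of `A` and the monoid `Q` acting on it. -/
@[ext] structure SD (ρ : Q →* AddMonoid.End A) where
  /-- the component in `A` -/
  a : A
  /-- the component in `Q` -/
  q : Q

variable (ρ : Q →* AddMonoid.End A)

instance : Mul (SD ρ) := ⟨fun x y => ⟨x.a + ρ x.q y.a, x.q * y.q⟩⟩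
instance : One (SD ρ) := ⟨⟨0, 1⟩⟩

@[simp] lemma SD.mul_a (x y : SD ρ) : (x * y).a = x.a + ρ x.q y.a := rfl
@[simp] lemma SD.mul_q (x y : SD ρ) : (x * y).q = x.q * y.q := rfl
@[simp] lemma SD.one_a : (1 : SD ρ).a = 0 := rfl
@[simp] lemma SD.one_q : (1 : SD ρ).q = 1 := rfl

instance : Monoid (SD ρ) where
  mul_assoc x y z := by
    ext
    · simp [add_assoc, map_add]
    · simp [mul_assoc]
  one_mul x := by ext <;> simp
  mul_one x := by ext <;> simp

variable {α : Type} (e : A) (v : α → Q)

/-- The letters of the semidirect product. -/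
def vE : α ⊕ Bool → SD ρ
  | .inl x => ⟨0, v x⟩
  | .inr true => ⟨e, 1⟩
  | .inr false => ⟨-e, 1⟩

@[simp] lemma vE_inl (x : α) : vE ρ e v (.inl x) = ⟨0, v x⟩ := rfl
@[simp] lemma vE_true : vE ρ e v (.inr true) = ⟨e, 1⟩ := rfl
@[simp] lemma vE_false : vE ρ e v (.inr false) = ⟨-e, 1⟩ := rfl

lemma val_map_inl (P : List α) : val (vE ρ e v) (P.map Sum.inl) = ⟨0, val v P⟩ := by
  induction P with
  | nil => rfl
  | cons x P ih =>
    rw [List.map_cons, val_cons, ih, val_cons]
    ext <;> simp

/-- Every word is a path in `Q` with masses at its vertices. -/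
lemma decompose (W : List (α ⊕ Bool)) : ∃ (P : List α) (a : ℕ → ℤ),
    (val (vE ρ e v) W).q = val v P ∧
    (val (vE ρ e v) W).a = ∑ k ∈ range (P.length + 1), a k • ρ (val v (P.take k)) e ∧
    ∑ k ∈ range (P.length + 1), |a k| + P.length ≤ W.length := by
  induction W with
  | nil => exact ⟨[], fun _ => 0, rfl, by simp, by simp⟩
  | cons x W ih =>
    obtain ⟨P, a, h1, h2, h3⟩ := ih
    rcases x with x | s
    · refine ⟨x :: P, fun k => if k = 0 then 0 else a (k - 1), ?_, ?_, ?_⟩
      · simp [h1]
      · rw [val_cons, List.length_cons, Finset.sum_range_succ']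
        simp [h2, map_sum, map_zsmul]
      · rw [List.length_cons, List.length_cons, Finset.sum_range_succ']
        simp
        omega
    · refine ⟨P, fun k => a k + if k = 0 then (if s then 1 else -1) else 0, ?_, ?_, ?_⟩
      · cases s <;> simp [h1]
      · rw [val_cons]
        simp_rw [add_smul]
        rw [Finset.sum_add_distrib, ← h2]
        have : ∑ k ∈ range (P.length + 1), (if k = 0 then (if s then (1 : ℤ) else -1) else 0) •
            ρ (val v (P.take k)) e = (if s then (1 : ℤ) else -1) • e := by
          rw [Finset.sum_eq_single 0]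
          · simp
          · intro b _ hb
            simp [hb]
          · simp
        rw [this]
        cases s <;> simp [add_comm]
      · have h4 : ∑ k ∈ range (P.length + 1), |a k + if k = 0 then (if s then (1 : ℤ) else -1) else 0|
            ≤ ∑ k ∈ range (P.length + 1), (|a k| + if k = 0 then (1 : ℤ) else 0) := by
          refine Finset.sum_le_sum fun k _ => (abs_add_le _ _).trans ?_
          gcongr
          split_ifs <;> simp
        rw [Finset.sum_add_distrib] at h4
        have h5 : ∑ k ∈ range (P.length + 1), (if k = 0 then (1 : ℤ) else 0) = 1 := by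
          rw [Finset.sum_eq_single 0] <;> simp +contextual
        rw [h5] at h4
        rw [List.length_cons]
        push_cast
        omega

/-- The word `W` visits everything the path `P` visits and ends where it ends. -/
def Over (P : List α) (W : List (α ⊕ Bool)) : Prop :=
  (val (vE ρ e v) W).q = val v P ∧
  ∀ h, Vis v P h → ∃ k, (val (vE ρ e v) (W.take k)).q = h

lemma over_self (P : List α) : Over ρ e v P (P.map Sum.inl) := by
  refine ⟨by rw [val_map_inl], ?_⟩
  rintro h ⟨k, rfl⟩
  exact ⟨k, by rw [← List.map_take, val_map_inl]⟩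

/-- Insertion of a closed word. -/
lemma over_insert {P : List α} {W : List (α ⊕ Bool)} {K : ℕ} (hW : Over ρ e v P W)
    (hB : Blk W K) {h : Q} (hh : Vis v P h) {X : List (α ⊕ Bool)} {x : A} {L : ℕ}
    (hX : val (vE ρ e v) X = ⟨x, 1⟩) (hXB : Blk X L) :
    ∃ W', Over ρ e v P W' ∧ (val (vE ρ e v) W').a = (val (vE ρ e v) W).a + ρ h x ∧
      W'.length = W.length + X.length ∧ Blk W' (K + L + 1) := by
  obtain ⟨k, hk⟩ := hW.2 h hh
  have hsplit : val (vE ρ e v) (W.take k) * val (vE ρ e v) (W.drop k) = val (vE ρ e v) W := by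
    rw [← val_append, List.take_append_drop]
  have hval : val (vE ρ e v) (W.take k ++ X ++ W.drop k) =
      ⟨(val (vE ρ e v) W).a + ρ h x, (val (vE ρ e v) W).q⟩ := by
    rw [val_append, val_append, hX, ← hsplit]
    ext
    · simp only [SD.mul_a, SD.mul_q, mul_one, hk]
      abel
    · simp
  refine ⟨W.take k ++ X ++ W.drop k, ⟨by rw [hval]; exact hW.1, ?_⟩, by rw [hval], ?_,
    hB.insert hXB k⟩
  · intro g hg
    obtain ⟨j, hj⟩ := hW.2 g hg
    by_cases hjk : j ≤ (W.take k).length
    · refine ⟨j, ?_⟩
      rw [List.append_assoc, List.take_append_of_le_length hjk, List.take_take]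
      simp only [List.length_take] at hjk
      rw [min_eq_left (by omega)]
      exact hj
    · push Not at hjk
      by_cases hkW : k ≤ W.length
      · have hlen : (W.take k).length = k := by simp [hkW]
        rw [hlen] at hjk
        refine ⟨k + X.length + (j - k), ?_⟩
        rw [List.take_append, List.take_of_length_le (by simp [hlen])]
        rw [List.length_append, hlen, Nat.add_sub_cancel_left]
        rw [val_append, val_append, hX]
        have : val (vE ρ e v) (W.take j) =
            val (vE ρ e v) (W.take k) * val (vE ρ e v) ((W.drop k).take (j - k)) := by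
          rw [← val_append]
          congr 1
          rw [← List.take_append_drop k (W.take j), List.take_take, min_eq_left hjk.le,
            List.drop_take]
        rw [← hj, this]
        simp
      · push Not at hkW
        have h1 : W.take k = W := List.take_of_length_le hkW.le
        have h2 : W.take j = W := by
          rw [h1] at hjk
          exact List.take_of_length_le hjk.le
        refine ⟨W.length, ?_⟩
        rw [h1, List.append_assoc, List.take_left' rfl, ← hj, h2]
  · simp only [List.length_append, List.length_take, List.length_drop]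
    omega

/-- `x` and `-x` are the values of short closed words. -/
def Cheap (L : ℕ) (x : A) : Prop :=
  (∃ X, val (vE ρ e v) X = ⟨x, 1⟩ ∧ X.length ≤ L) ∧
  (∃ X, val (vE ρ e v) X = ⟨-x, 1⟩ ∧ X.length ≤ L)

lemma Cheap.neg {L : ℕ} {x : A} (h : Cheap ρ e v L x) : Cheap ρ e v L (-x) :=
  ⟨h.2, by rw [neg_neg]; exact h.1⟩

lemma cheap_zero {L : ℕ} : Cheap ρ e v L 0 :=
  ⟨⟨[], rfl, by simp⟩, ⟨[], by simp; rfl, by simp⟩⟩

lemma cheap_e {L : ℕ} (hL : 1 ≤ L) : Cheap ρ e v L e :=
  ⟨⟨[.inr true], by simp, by simpa using hL⟩, ⟨[.inr false], by simp, by simpa using hL⟩⟩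

/-- Sums of `n` translates of cheap elements by visited elements. -/
inductive InsSum (P : List α) (L : ℕ) : ℕ → A → Prop
  | zero : InsSum P L 0 0
  | succ {n : ℕ} {r : A} (h : Q) (x : A) : InsSum P L n r → Vis v P h → Cheap ρ e v L x →
      InsSum P L (n + 1) (r + ρ h x)

variable {ρ e v}

lemma vis_one (P : List α) : Vis v P 1 := ⟨0, by simp⟩

lemma InsSum.add {P : List α} {L n m : ℕ} {r s : A} (hr : InsSum ρ e v P L n r)
    (hs : InsSum ρ e v P L m s) : InsSum ρ e v P L (n + m) (r + s) := by
  induction hs with
  | zero => simpa using hr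
  | succ h x _ hv hc ih =>
    have := InsSum.succ h x ih hv hc
    rw [← add_assoc r]
    exact this

lemma InsSum.mono {P : List α} {L n m : ℕ} {r : A} (hr : InsSum ρ e v P L n r) (h : n ≤ m) :
    InsSum ρ e v P L m r := by
  induction h with
  | refl => exact hr
  | step _ ih =>
    have := InsSum.succ 1 0 ih (vis_one P) (cheap_zero ρ e v)
    simpa using this

lemma InsSum.one {P : List α} {L : ℕ} {h : Q} {x : A} (hv : Vis v P h)
    (hc : Cheap ρ e v L x) : InsSum ρ e v P L 1 (ρ h x) := by
  simpa using InsSum.succ h x InsSum.zero hv hc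

lemma InsSum.neg {P : List α} {L n : ℕ} {r : A} (hr : InsSum ρ e v P L n r) :
    InsSum ρ e v P L n (-r) := by
  induction hr with
  | zero => simpa using InsSum.zero
  | succ h x _ hv hc ih =>
    have := InsSum.succ h (-x) ih hv (hc.neg ρ e v)
    rw [map_neg] at this
    rw [neg_add]
    exact this

lemma InsSum.sub {P : List α} {L n m : ℕ} {r s : A} (hr : InsSum ρ e v P L n r)
    (hs : InsSum ρ e v P L m s) : InsSum ρ e v P L (n + m) (r - s) := by
  rw [sub_eq_add_neg]
  exact hr.add hs.neg

lemma InsSum.sum {ι : Type} (s : Finset ι) {P : List α} {L n : ℕ} {r : ι → A}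
    (hr : ∀ i ∈ s, InsSum ρ e v P L n (r i)) : InsSum ρ e v P L (s.card * n) (∑ i ∈ s, r i) := by
  classical
  induction s using Finset.induction_on with
  | empty => simpa using InsSum.zero
  | insert i s hi ih =>
    rw [Finset.sum_insert hi, Finset.card_insert_of_notMem hi]
    have := (hr i (Finset.mem_insert_self _ _)).add
      (ih fun j hj => hr j (Finset.mem_insert_of_mem hj))
    rwa [show (s.card + 1) * n = n + s.card * n by ring]

variable (ρ e v)

/-- The condition on the orbit of `e`: an element of `A` which is a combination with bounded real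
coefficients of the elements `h e`, with `h` at the ends of the blocks of a word, is a bounded sum
of cheap elements placed along the word. -/
def Rem {V : Type} [AddCommGroup V] [Module ℝ V] (φ : A →+ V) : Prop :=
  ∃ L : ℕ, ∀ K : ℕ, ∃ C : ℕ, ∀ B : List (α × ℕ), B.length ≤ K → ∀ (r : A) (F : ℕ → ℝ),
    (∀ l, |F l| ≤ K) →
    φ r = ∑ l ∈ range (B.length + 1), F l • φ (ρ (val v (flat (B.take l))) e) →
    InsSum ρ e v (flat B) L C r

theorem ext_step {V : Type} [AddCommGroup V] [Module ℝ V] [Module.Finite ℝ V] (φ : A →+ V)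
    (hBSP : BSP v) (hR : Rem ρ e v φ) : BSP (vE ρ e v) := by
  classical
  obtain ⟨C₀, hC₀⟩ := hBSP
  obtain ⟨L, hL⟩ := hR
  set N := Module.finrank ℝ V + 1 with hN
  obtain ⟨C, hC⟩ := hL (max ((N + 1) * C₀) N)
  refine ⟨(N + 1) * C₀ + 2 * N + C * (L + 1), fun W => ?_⟩
  obtain ⟨P, a, hq, ha, hcost⟩ := decompose ρ e v W
  obtain ⟨T, hT, hTc, a', f, hf, hle, hsum⟩ := rounding (range (P.length + 1))
    (fun k => φ (ρ (val v (P.take k)) e)) a
  obtain ⟨B, hB1, hB2, hB3, hB4⟩ := sections v hC₀ N P T hT hTc
  choose! l hl hl' using hB4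
  -- the base path
  set W₀ : List (α ⊕ Bool) := (flat B).map Sum.inl with hW₀
  have hO₀ : Over ρ e v (flat B) W₀ := over_self ρ e v _
  have hK₀ : Blk W₀ ((N + 1) * C₀) := Blk.map _ ⟨B, rfl, hB3⟩
  have hv₀ : (val (vE ρ e v) W₀).a = 0 := by rw [hW₀, val_map_inl]
  -- the visited points
  have hvis : ∀ k ∈ T, Vis v (flat B) (val v (P.take k)) := by
    intro k hk
    refine ⟨(flat (B.take (l k))).length, ?_⟩
    have hfl : flat B = flat (B.take (l k)) ++ flat (B.drop (l k)) := by
      rw [← flat_append, List.take_append_drop]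
    rw [← hl' k hk, hfl, List.take_left' rfl]
  -- insertion of the masses
  have hmass : ∀ S ⊆ T, ∃ W', Over ρ e v (flat B) W' ∧
      (val (vE ρ e v) W').a = ∑ k ∈ S, a' k • ρ (val v (P.take k)) e ∧
      (W'.length : ℤ) = W₀.length + ∑ k ∈ S, |a' k| ∧ Blk W' ((N + 1) * C₀ + 2 * S.card) := by
    intro S
    induction S using Finset.induction_on with
    | empty => exact fun _ => ⟨W₀, hO₀, by simp [hv₀], by simp, by simpa using hK₀⟩
    | insert k S hk ih =>
      intro hS
      obtain ⟨W', h1, h2, h3, h4⟩ := ih ((Finset.subset_insert _ _).trans hS)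
      have hkT : k ∈ T := hS (Finset.mem_insert_self _ _)
      -- the word
      obtain ⟨X, hX, hXl, hXB⟩ : ∃ X : List (α ⊕ Bool), val (vE ρ e v) X = ⟨a' k • e, 1⟩ ∧
          (X.length : ℤ) = |a' k| ∧ Blk X 1 := by
        have hpow : ∀ (x : A) (n : ℕ), (⟨x, 1⟩ : SD ρ) ^ n = ⟨n • x, 1⟩ := by
          intro x n
          induction n with
          | zero => rw [pow_zero, zero_smul]; rfl
          | succ n ih =>
            rw [pow_succ, ih]
            ext
            · simp [succ_nsmul]
            · simp
        rcases le_total 0 (a' k) with h | h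
        · refine ⟨List.replicate (a' k).toNat (.inr true), ?_, ?_, Blk.replicate _ _⟩
          · rw [val_replicate, vE_true, hpow]
            rw [← natCast_zsmul, Int.toNat_of_nonneg h]
          · rw [List.length_replicate, Int.toNat_of_nonneg h, abs_of_nonneg h]
        · refine ⟨List.replicate (- a' k).toNat (.inr false), ?_, ?_, Blk.replicate _ _⟩
          · rw [val_replicate, vE_false, hpow]
            rw [← natCast_zsmul, Int.toNat_of_nonneg (by omega)]
            simp
          · rw [List.length_replicate, Int.toNat_of_nonneg (by omega), abs_of_nonpos h]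
      obtain ⟨W'', g1, g2, g3, g4⟩ := over_insert ρ e v h1 h4 (hvis k hkT) hX hXB
      refine ⟨W'', g1, ?_, ?_, ?_⟩
      · rw [g2, h2, Finset.sum_insert hk, map_zsmul, add_comm]
      · rw [g3, Finset.sum_insert hk]
        push_cast
        rw [h3, hXl]
        ring
      · rw [Finset.card_insert_of_notMem hk]
        exact g4.mono (by omega)
  obtain ⟨W₁, h1, h2, h3, h4⟩ := hmass T Subset.rfl
  -- the remainder
  set r : A := (val (vE ρ e v) W).a - ∑ k ∈ T, a' k • ρ (val v (P.take k)) e with hr
  have hφr : φ r = ∑ k ∈ T, f k • φ (ρ (val v (P.take k)) e) := by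
    rw [hr, map_sub, ha, map_sum, map_sum]
    simp_rw [map_zsmul]
    have e1 : ∀ (z : ℤ) (x : V), z • x = (z : ℝ) • x := fun z x => (Int.cast_smul_eq_zsmul ℝ z x).symm
    simp_rw [e1]
    rw [hsum, ← Finset.sum_sub_distrib]
    refine Finset.sum_congr rfl fun k _ => ?_
    rw [add_smul]
    abel
  have hins : InsSum ρ e v (flat B) L C r := by
    refine hC B (hB3.trans (le_max_left _ _)) r
      (fun j => ∑ k ∈ T.filter (fun k => l k = j), f k) ?_ ?_
    · intro j
      refine (Finset.abs_sum_le_sum_abs _ _).trans ?_
      refine (Finset.sum_le_sum (g := fun _ => (1 : ℝ)) fun k _ => hf k).trans ?_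
      rw [Finset.sum_const, nsmul_eq_mul, mul_one]
      have : (T.filter (fun k => l k = j)).card ≤ max ((N + 1) * C₀) N :=
        (Finset.card_filter_le _ _).trans (hTc.trans (le_max_right _ _))
      exact_mod_cast this
    · rw [hφr]
      rw [← Finset.sum_fiberwise_of_maps_to (s := T) (t := range (B.length + 1)) (g := l)
        (fun k hk => by simpa using Nat.lt_succ_of_le (hl k hk))]
      refine Finset.sum_congr rfl fun j _ => ?_
      rw [Finset.sum_smul]
      refine Finset.sum_congr rfl fun k hk => ?_
      rw [Finset.mem_filter] at hk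
      rw [← hl' k hk.1, hk.2]
  have hinsW : ∀ n r, InsSum ρ e v (flat B) L n r → ∃ W', Over ρ e v (flat B) W' ∧
      (val (vE ρ e v) W').a = (val (vE ρ e v) W₁).a + r ∧
      W'.length ≤ W₁.length + n * L ∧ Blk W' ((N + 1) * C₀ + 2 * T.card + n * (L + 1)) := by
    intro n r hr
    induction hr with
    | zero => exact ⟨W₁, h1, by simp, by simp, by simpa using h4⟩
    | succ h x _ hv hc ih =>
      obtain ⟨W', g1, g2, g3, g4⟩ := ih
      obtain ⟨X, hX, hXl⟩ := hc.1
      obtain ⟨W'', k1, k2, k3, k4⟩ := over_insert ρ e v g1 g4 hv hX (Blk.self X)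
      refine ⟨W'', k1, by rw [k2, g2, add_assoc], ?_, ?_⟩
      · rw [k3]
        rw [add_mul, one_mul]
        omega
      · refine k4.mono ?_
        rw [Nat.succ_mul _ (L + 1)]
        omega
  obtain ⟨W', g1, g2, g3, g4⟩ := hinsW C r hins
  refine ⟨W', ?_, ?_, ?_⟩
  · ext
    · rw [g2, h2, hr]
      abel
    · rw [g1.1, hB1, hq]
  · have e1 : (W₀.length : ℤ) = (flat B).length := by rw [hW₀, List.length_map]
    have e2 : C * L ≤ C * (L + 1) := by gcongr; omega
    zify at g3 hB2 e2 hcost ⊢
    rw [h3, e1] at g3
    linarith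
  · refine g4.mono ?_
    have : 2 * T.card ≤ 2 * N := by omega
    omega

end sd

end Pool.Agent.Y36.PG
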