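import Pool.Agent.Y36.PG.N3

/-!
# The ambient group with a rotation of order three
-/

set_option autoImplicit false

namespace Pool.Agent.Y36.PG

/-- Truncated noncommutative power series in three cyclically indexed variables, together with a
rotation. -/
@[ext] structure Gam : Type where
  /-- coefficients of the variables -/
  n : ZMod 3 → ℤ
  /-- coefficients of `X_k X_{k+1}` -/
  c : ZMod 3 → ℤ
  /-- coefficients of `X_k X_{k+1} X_{k+2}` -/
  d : ZMod 3 → ℤ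
  /-- the rotation -/
  r : ZMod 3

namespace Gam

instance : Mul Gam := ⟨fun x y =>
  { n := fun k => x.n k + y.n (k - x.r)
    c := fun k => x.c k + y.c (k - x.r) + x.n k * y.n (k + 1 - x.r)
    d := fun k => x.d k + y.d (k - x.r) + x.n k * y.c (k + 1 - x.r) + x.c k * y.n (k + 2 - x.r)
    r := x.r + y.r }⟩

instance : One Gam := ⟨⟨fun _ => 0, fun _ => 0, fun _ => 0, 0⟩⟩

instance : Inv Gam := ⟨fun x =>
  { n := fun k => - x.n (k + x.r)
    c := fun k => - x.c (k + x.r) + x.n (k + x.r) * x.n (k + 1 + x.r)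
    d := fun k => - (x.d (k + x.r) + (- x.n (k + x.r)) * x.c (k + 1 + x.r) +
      (- x.c (k + x.r) + x.n (k + x.r) * x.n (k + 1 + x.r)) * x.n (k + 2 + x.r))
    r := - x.r }⟩

@[simp] lemma mul_n (x y : Gam) (k : ZMod 3) : (x * y).n k = x.n k + y.n (k - x.r) := rfl
@[simp] lemma mul_c (x y : Gam) (k : ZMod 3) :
    (x * y).c k = x.c k + y.c (k - x.r) + x.n k * y.n (k + 1 - x.r) := rfl
@[simp] lemma mul_d (x y : Gam) (k : ZMod 3) : (x * y).d k =
    x.d k + y.d (k - x.r) + x.n k * y.c (k + 1 - x.r) + x.c k * y.n (k + 2 - x.r) := rfl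
@[simp] lemma mul_r (x y : Gam) : (x * y).r = x.r + y.r := rfl
@[simp] lemma one_n (k : ZMod 3) : (1 : Gam).n k = 0 := rfl
@[simp] lemma one_c (k : ZMod 3) : (1 : Gam).c k = 0 := rfl
@[simp] lemma one_d (k : ZMod 3) : (1 : Gam).d k = 0 := rfl
@[simp] lemma one_r : (1 : Gam).r = 0 := rfl
@[simp] lemma inv_n (x : Gam) (k : ZMod 3) : (x⁻¹).n k = - x.n (k + x.r) := rfl
@[simp] lemma inv_c (x : Gam) (k : ZMod 3) :
    (x⁻¹).c k = - x.c (k + x.r) + x.n (k + x.r) * x.n (k + 1 + x.r) := rfl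
@[simp] lemma inv_d (x : Gam) (k : ZMod 3) : (x⁻¹).d k =
    - (x.d (k + x.r) + (- x.n (k + x.r)) * x.c (k + 1 + x.r) +
      (- x.c (k + x.r) + x.n (k + x.r) * x.n (k + 1 + x.r)) * x.n (k + 2 + x.r)) := rfl
@[simp] lemma inv_r (x : Gam) : (x⁻¹).r = - x.r := rfl

instance : Group Gam := Group.ofLeftAxioms
  (by
    intro x y z
    have e1 : ∀ k : ZMod 3, k - (x.r + y.r) = k - x.r - y.r := fun k => by ring
    have e2 : ∀ k : ZMod 3, k + 1 - (x.r + y.r) = k - x.r + 1 - y.r := fun k => by ring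
    have e3 : ∀ k : ZMod 3, k + 2 - (x.r + y.r) = k - x.r + 2 - y.r := fun k => by ring
    have e4 : ∀ k : ZMod 3, k + 1 - x.r - y.r = k - x.r + 1 - y.r := fun k => by ring
    have e5 : ∀ k : ZMod 3, k + 2 - x.r - y.r = k - x.r + 2 - y.r := fun k => by ring
    have e6 : ∀ k : ZMod 3, k + 1 - x.r = k - x.r + 1 := fun k => by ring
    have e7 : ∀ k : ZMod 3, k + 2 - x.r = k - x.r + 2 := fun k => by ring
    have e8 : ∀ k : ZMod 3, k + 1 + 1 = k + 2 := fun k => by ring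
    ext k
    · simp only [mul_n, mul_r, e1]
      ring
    · simp only [mul_n, mul_c, mul_r, e1, e2, e4, e6]
      ring
    · simp only [mul_n, mul_c, mul_d, mul_r, e1, e2, e3, e4, e5, e6, e7, e8]
      ring
    · simp only [mul_r]
      ring)
  (by
    intro x
    ext k <;> simp)
  (by
    intro x
    ext k
    · simp
    · simp
    · simp
      ring
    · simp)

end Gam

/-- The sign of a Boolean. -/
def sgn : Bool → ℤ
  | true => 1
  | false => -1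

/-- The letters `(1 + X_k)^{±1}`. -/
def V (x : ZMod 3 × Bool) : Gam :=
  { n := fun j => if j = x.1 then sgn x.2 else 0, c := fun _ => 0, d := fun _ => 0, r := 0 }

/-- The rotations. -/
def T (j : ZMod 3) : Gam := { n := fun _ => 0, c := fun _ => 0, d := fun _ => 0, r := j }

lemma T_mul_T (i j : ZMod 3) : T i * T j = T (i + j) := by
  ext <;> simp [T]

lemma T_zero : T 0 = 1 := by
  ext <;> simp [T]

lemma T_mul_V (i k : ZMod 3) (s : Bool) : T i * V (k, s) = V (k + i, s) * T i := by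
  ext j
  · simp only [T, V, Gam.mul_n]
    simp [sub_eq_iff_eq_add]
  · simp [T, V]
  · simp [T, V]
  · simp [T, V]

/-- The letter of the group of class three as a letter `(1 + X_k)^{±1}`. -/
def kap : (Bool ⊕ Bool) ⊕ Bool → ZMod 3 × Bool
  | .inr s => (0, s)
  | .inl (.inr s) => (1, s)
  | .inl (.inl s) => (2, s)

lemma kap_surjective : Function.Surjective kap := by
  rintro ⟨k, s⟩
  fin_cases k
  · exact ⟨.inr s, rfl⟩
  · exact ⟨.inl (.inr s), rfl⟩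
  · exact ⟨.inl (.inl s), rfl⟩

/-- The embedding of the group of class three. -/
def Phi (x : SD ρ₂) : Gam :=
  { n := (![x.a.1, cp x.q, cq x.q] : Fin 3 → ℤ)
    c := (![x.a.1 * cp x.q - x.a.2.1, cp x.q * cq x.q - cb x.q, x.a.2.2.1] : Fin 3 → ℤ)
    d := (![x.a.1 * (cp x.q * cq x.q - cb x.q) + x.a.2.2.2.2 - cq x.q * x.a.2.1,
      x.a.2.2.2.1 - x.a.2.2.2.2, cp x.q * x.a.2.2.1 - x.a.2.2.2.1] : Fin 3 → ℤ)
    r := 0 }

lemma Phi_n0 (x : SD ρ₂) : (Phi x).n 0 = x.a.1 := rfl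
lemma Phi_n1 (x : SD ρ₂) : (Phi x).n 1 = cp x.q := rfl
lemma Phi_n2 (x : SD ρ₂) : (Phi x).n 2 = cq x.q := rfl
lemma Phi_c0 (x : SD ρ₂) : (Phi x).c 0 = x.a.1 * cp x.q - x.a.2.1 := rfl
lemma Phi_c1 (x : SD ρ₂) : (Phi x).c 1 = cp x.q * cq x.q - cb x.q := rfl
lemma Phi_c2 (x : SD ρ₂) : (Phi x).c 2 = x.a.2.2.1 := rfl
lemma Phi_d0 (x : SD ρ₂) : (Phi x).d 0 =
    x.a.1 * (cp x.q * cq x.q - cb x.q) + x.a.2.2.2.2 - cq x.q * x.a.2.1 := rfl
lemma Phi_d1 (x : SD ρ₂) : (Phi x).d 1 = x.a.2.2.2.1 - x.a.2.2.2.2 := rfl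
lemma Phi_d2 (x : SD ρ₂) : (Phi x).d 2 = cp x.q * x.a.2.2.1 - x.a.2.2.2.1 := rfl

lemma gam_ext {x y : Gam} (hn0 : x.n 0 = y.n 0) (hn1 : x.n 1 = y.n 1) (hn2 : x.n 2 = y.n 2)
    (hc0 : x.c 0 = y.c 0) (hc1 : x.c 1 = y.c 1) (hc2 : x.c 2 = y.c 2)
    (hd0 : x.d 0 = y.d 0) (hd1 : x.d 1 = y.d 1) (hd2 : x.d 2 = y.d 2) (hr : x.r = y.r) :
    x = y := by
  ext k
  · fin_cases k
    exacts [hn0, hn1, hn2]
  · fin_cases k
    exacts [hc0, hc1, hc2]
  · fin_cases k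
    exacts [hd0, hd1, hd2]
  · exact hr

lemma Phi_one : Phi 1 = 1 := by
  apply gam_ext <;> rfl

lemma Phi_r (x : SD ρ₂) : (Phi x).r = 0 := rfl

lemma Phi_mul (x y : SD ρ₂) : Phi (x * y) = Phi x * Phi y := by
  have a1 : (0 : ZMod 3) + 1 = 1 := by decide
  have a2 : (1 : ZMod 3) + 1 = 2 := by decide
  have a3 : (2 : ZMod 3) + 1 = 0 := by decide
  have a4 : (0 : ZMod 3) + 2 = 2 := by decide
  have a5 : (1 : ZMod 3) + 2 = 0 := by decide
  have a6 : (2 : ZMod 3) + 2 = 1 := by decide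
  apply gam_ext
  · simp only [Gam.mul_n, Gam.mul_c, Gam.mul_d, Phi_r, sub_zero, a1, a2, a3, a4, a5, a6]
    simp only [Phi_n0, SD.mul_a, SD.mul_q, ρ₂_apply, cp_mul, cq_mul, cb_mul]
    simp
  · simp only [Gam.mul_n, Gam.mul_c, Gam.mul_d, Phi_r, sub_zero, a1, a2, a3, a4, a5, a6]
    simp only [Phi_n1, SD.mul_a, SD.mul_q, ρ₂_apply, cp_mul, cq_mul, cb_mul]
  · simp only [Gam.mul_n, Gam.mul_c, Gam.mul_d, Phi_r, sub_zero, a1, a2, a3, a4, a5, a6]
    simp only [Phi_n2, SD.mul_a, SD.mul_q, ρ₂_apply, cp_mul, cq_mul, cb_mul]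
  · simp only [Gam.mul_n, Gam.mul_c, Gam.mul_d, Phi_r, sub_zero, a1, a2, a3, a4, a5, a6]
    simp only [Phi_c0, Phi_n0, Phi_n1, SD.mul_a, SD.mul_q, ρ₂_apply, cp_mul, cq_mul, cb_mul]
    simp
    ring
  · simp only [Gam.mul_n, Gam.mul_c, Gam.mul_d, Phi_r, sub_zero, a1, a2, a3, a4, a5, a6]
    simp only [Phi_c1, Phi_n1, Phi_n2, SD.mul_a, SD.mul_q, ρ₂_apply, cp_mul, cq_mul, cb_mul]
    ring
  · simp only [Gam.mul_n, Gam.mul_c, Gam.mul_d, Phi_r, sub_zero, a1, a2, a3, a4, a5, a6]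
    simp only [Phi_c2, Phi_n2, Phi_n0, SD.mul_a, SD.mul_q, ρ₂_apply, cp_mul, cq_mul, cb_mul]
    simp
    ring
  · simp only [Gam.mul_n, Gam.mul_c, Gam.mul_d, Phi_r, sub_zero, a1, a2, a3, a4, a5, a6]
    simp only [Phi_d0, Phi_c1, Phi_c0, Phi_n2, Phi_n0, SD.mul_a, SD.mul_q, ρ₂_apply, cp_mul,
      cq_mul, cb_mul]
    simp
    ring
  · simp only [Gam.mul_n, Gam.mul_c, Gam.mul_d, Phi_r, sub_zero, a1, a2, a3, a4, a5, a6]
    simp only [Phi_d1, Phi_c1, Phi_c2, Phi_n1, Phi_n0, SD.mul_a, SD.mul_q, ρ₂_apply, cp_mul,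
      cq_mul, cb_mul]
    simp
    ring
  · simp only [Gam.mul_n, Gam.mul_c, Gam.mul_d, Phi_r, sub_zero, a1, a2, a3, a4, a5, a6]
    simp only [Phi_d2, Phi_c2, Phi_c0, Phi_n2, Phi_n1, SD.mul_a, SD.mul_q, ρ₂_apply, cp_mul,
      cq_mul, cb_mul]
    simp
    ring
  · rfl

lemma Phi_v₃ (l : (Bool ⊕ Bool) ⊕ Bool) : Phi (v₃ l) = V (kap l) := by
  rcases l with ((_ | _) | (_ | _)) | (_ | _) <;> apply gam_ext <;> rfl

/-- The value of a word in the group `Gam`. -/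
lemma val_kap (W : List ((Bool ⊕ Bool) ⊕ Bool)) : val V (W.map kap) = Phi (val v₃ W) := by
  induction W with
  | nil => rw [List.map_nil, val_nil, val_nil, Phi_one]
  | cons x W ih => rw [List.map_cons, val_cons, val_cons, ih, Phi_mul, Phi_v₃]

/-- The bounded syllable property for the group generated by the `1 + X_k`. -/
theorem bspV : BSP V := by
  obtain ⟨C, hC⟩ := bsp₃
  refine ⟨C, fun W => ?_⟩
  obtain ⟨W₃, rfl⟩ := List.map_surjective_iff.2 kap_surjective W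
  obtain ⟨W', h1, h2, h3⟩ := hC W₃
  exact ⟨W'.map kap, by rw [val_kap, val_kap, h1], by simpa using h2, h3.map kap⟩

end Pool.Agent.Y36.PG
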