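import Pool.Agent.Y36.PG.Gam

/-!
# Geodesics in the group generated by `1 + X_0` and the rotation
-/

set_option autoImplicit false

namespace Pool.Agent.Y36.PG

open Finset

/-- The four letters: the powers of `1 + X_0` and of the rotation. -/
def sl : Bool ⊕ Bool → Gam
  | .inl s => V (0, s)
  | .inr true => T 1
  | .inr false => T (-1)

/-- The number of rotation letters. -/
def tc (w : List (Bool ⊕ Bool)) : ℕ := w.countP Sum.isRight

@[simp] lemma tc_nil : tc [] = 0 := rfl
@[simp] lemma tc_inl (s : Bool) (w : List (Bool ⊕ Bool)) : tc (.inl s :: w) = tc w := by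
  simp [tc]
@[simp] lemma tc_inr (s : Bool) (w : List (Bool ⊕ Bool)) : tc (.inr s :: w) = tc w + 1 := by
  simp [tc, List.countP_cons]

/-- Shifting the indices. -/
def shift (i : ZMod 3) (W : List (ZMod 3 × Bool)) : List (ZMod 3 × Bool) :=
  W.map (fun x => (x.1 + i, x.2))

lemma T_mul_val (i : ZMod 3) (W : List (ZMod 3 × Bool)) :
    T i * val V W = val V (shift i W) * T i := by
  induction W with
  | nil => simp [shift]
  | cons x W ih =>
    obtain ⟨k, s⟩ := x
    rw [val_cons, ← mul_assoc, T_mul_V, mul_assoc, ih]
    simp [shift, mul_assoc]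

lemma to_V (w : List (Bool ⊕ Bool)) : ∃ (W : List (ZMod 3 × Bool)) (j : ZMod 3),
    val sl w = val V W * T j ∧ W.length + tc w = w.length := by
  induction w with
  | nil => exact ⟨[], 0, by simp [T_zero], rfl⟩
  | cons x w ih =>
    obtain ⟨W, j, h1, h2⟩ := ih
    rcases x with s | s
    · refine ⟨(0, s) :: W, j, ?_, ?_⟩
      · rw [val_cons, val_cons, h1, mul_assoc]
        rfl
      · simp
        omega
    · cases s
      · refine ⟨shift (-1) W, -1 + j, ?_, ?_⟩
        · rw [val_cons, h1, ← mul_assoc]
          change T (-1) * val V W * T j = _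
          rw [T_mul_val, mul_assoc, T_mul_T]
        · simp [shift]
          omega
      · refine ⟨shift 1 W, 1 + j, ?_, ?_⟩
        · rw [val_cons, h1, ← mul_assoc]
          change T 1 * val V W * T j = _
          rw [T_mul_val, mul_assoc, T_mul_T]
        · simp [shift]
          omega

lemma move (i k : ZMod 3) : ∃ w : List (Bool ⊕ Bool), w.length ≤ 1 ∧ T i * val sl w = T k := by
  have h3 : ∀ d : ZMod 3, d = 0 ∨ d = 1 ∨ d = -1 := by decide
  rcases h3 (k - i) with h | h | h
  · refine ⟨[], by simp, ?_⟩
    rw [val_nil, mul_one, sub_eq_zero.1 h]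
  · refine ⟨[.inr true], by simp, ?_⟩
    rw [val_cons, val_nil, mul_one]
    change T i * T 1 = _
    rw [T_mul_T, ← h]
    congr 1
    ring
  · refine ⟨[.inr false], by simp, ?_⟩
    rw [val_cons, val_nil, mul_one]
    change T i * T (-1) = _
    rw [T_mul_T, ← h]
    congr 1
    ring

lemma of_V (B : List ((ZMod 3 × Bool) × ℕ)) : ∀ i j : ZMod 3, ∃ w : List (Bool ⊕ Bool),
    T i * val sl w = val V (flat B) * T j ∧ w.length ≤ (flat B).length + B.length + 1 := by
  induction B with
  | nil =>
    intro i j
    obtain ⟨w, h1, h2⟩ := move i j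
    exact ⟨w, by simpa using h2, by simpa using h1⟩
  | cons x B ih =>
    obtain ⟨⟨k, s⟩, n⟩ := x
    intro i j
    obtain ⟨w, h1, h2⟩ := ih k j
    obtain ⟨w', g1, g2⟩ := move i k
    refine ⟨w' ++ (List.replicate n (.inl s) ++ w), ?_, ?_⟩
    · rw [val_append, ← mul_assoc, g2, val_append, val_replicate, flat_cons, val_append,
        val_replicate, mul_assoc, ← h1]
      have : ∀ n : ℕ, T k * V (0, s) ^ n = V (k, s) ^ n * T k := by
        intro n
        induction n with
        | zero => simp
        | succ n ih =>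
          rw [pow_succ, ← mul_assoc, ih, mul_assoc, T_mul_V, zero_add, pow_succ, mul_assoc]
      change T k * (V (0, s) ^ n * _) = _
      rw [← mul_assoc, this, mul_assoc]
    · simp only [List.length_append, List.length_replicate, flat_cons, List.length_cons]
      omega

/-- Geodesics contain boundedly many rotation letters. -/
theorem tc_bounded : ∃ C : ℕ, ∀ w : List (Bool ⊕ Bool),
    (∀ w', val sl w' = val sl w → w.length ≤ w'.length) → tc w ≤ C := by
  obtain ⟨C, hC⟩ := bspV
  refine ⟨2 * C + 1, fun w hw => ?_⟩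
  obtain ⟨W, j, h1, h2⟩ := to_V w
  obtain ⟨W', g1, g2, B, rfl, g3⟩ := hC W
  obtain ⟨w', k1, k2⟩ := of_V B 0 j
  have := hw w' (by rw [h1, ← g1, ← k1, T_zero, one_mul])
  omega

/-- Geodesics have boundedly many blocks. -/
lemma blocks_aux (w : List (Bool ⊕ Bool)) : ∀ x : Bool ⊕ Bool,
    (∀ w₁ w₂ s, x :: w ≠ w₁ ++ .inl s :: .inl (!s) :: w₂) →
    ∃ (n : ℕ) (B : List ((Bool ⊕ Bool) × ℕ)), x :: w = List.replicate (n + 1) x ++ flat B ∧
      B.length + 1 ≤ 2 * tc (x :: w) + (if x.isLeft then 1 else 0) := by
  induction w with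
  | nil =>
    intro x _
    refine ⟨0, [], by simp, ?_⟩
    rcases x with s | s <;> simp
  | cons y w ih =>
    intro x hx
    obtain ⟨n, B, h1, h2⟩ := ih y (by
      intro w₁ w₂ s h
      exact hx (x :: w₁) w₂ s (by rw [h]; rfl))
    by_cases hxy : x = y
    · subst hxy
      refine ⟨n + 1, B, ?_, ?_⟩
      · rw [h1, List.replicate_succ (n := n + 1)]
        rfl
      · refine h2.trans ?_
        gcongr 2 * ?_ + _
        rcases x with s | s <;> simp
    · refine ⟨0, (y, n + 1) :: B, ?_, ?_⟩
      · rw [flat_cons, ← h1]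
        simp
      · rw [List.length_cons]
        rcases x with s | s
        · rcases y with s' | s'
          · exfalso
            have hs : s' = !s := by
              cases s <;> cases s' <;> simp_all
            exact hx [] w s (by rw [hs]; rfl)
          · simp at h2 ⊢
            omega
        · rcases y with s' | s'
          · simp at h2 ⊢
            omega
          · simp at h2 ⊢
            omega

lemma V_cancel (s : Bool) : V (0, s) * V (0, !s) = 1 := by
  cases s <;> apply gam_ext <;> simp [V, sgn] <;> decide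

lemma blocks (w : List (Bool ⊕ Bool))
    (hw : ∀ w', val sl w' = val sl w → w.length ≤ w'.length) : Blk w (2 * tc w + 1) := by
  have hnc : ∀ w₁ w₂ s, w ≠ w₁ ++ .inl s :: .inl (!s) :: w₂ := by
    intro w₁ w₂ s h
    have := hw (w₁ ++ w₂) (by
      rw [h, val_append, val_append, val_cons, val_cons]
      change _ = _ * (V (0, s) * (V (0, !s) * _))
      rw [← mul_assoc (V (0, s)), V_cancel, one_mul])
    rw [h] at this
    simp at this
  rcases w with _ | ⟨x, w⟩
  · exact Blk.nil _
  · obtain ⟨n, B, h1, h2⟩ := blocks_aux w x hnc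
    refine ⟨(x, n + 1) :: B, by rw [flat_cons, ← h1], ?_⟩
    rw [List.length_cons]
    refine h2.trans ?_
    gcongr
    split_ifs <;> simp

/-- Counting words with few blocks. -/
lemma count_blocks (K n : ℕ) :
    {w : List (Bool ⊕ Bool) | Blk w K ∧ w.length ≤ n}.Finite ∧
    {w : List (Bool ⊕ Bool) | Blk w K ∧ w.length ≤ n}.ncard ≤ (4 * (n + 1)) ^ K := by
  set f : (Fin K → (Bool ⊕ Bool) × Fin (n + 1)) → List (Bool ⊕ Bool) :=
    fun g => flat (List.ofFn (fun i => ((g i).1, ((g i).2 : ℕ)))) with hf
  have hsub : {w : List (Bool ⊕ Bool) | Blk w K ∧ w.length ≤ n} ⊆ Set.range f := by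
    rintro w ⟨⟨B, rfl, hB⟩, hn⟩
    -- each block is short
    have hshort : ∀ p ∈ B, p.2 < n + 1 := by
      intro p hp
      have : p.2 ≤ (flat B).length := by
        clear hB hn
        induction B with
        | nil => simp at hp
        | cons q B ih =>
          rw [flat_cons, List.length_append, List.length_replicate]
          rcases List.mem_cons.1 hp with rfl | h
          · omega
          · have := ih h
            omega
      omega
    refine ⟨fun i => if h : (i : ℕ) < B.length then
      ((B[i]).1, ⟨(B[i]).2, hshort _ (List.getElem_mem h)⟩) else (.inl true, 0), ?_⟩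
    simp only [hf]
    have : List.ofFn (fun i : Fin K => (((if h : (i : ℕ) < B.length then
        ((B[i]).1, (⟨(B[i]).2, hshort _ (List.getElem_mem h)⟩ : Fin (n + 1)))
        else (.inl true, 0)) : (Bool ⊕ Bool) × Fin (n + 1)).1,
        ((((if h : (i : ℕ) < B.length then
        ((B[i]).1, (⟨(B[i]).2, hshort _ (List.getElem_mem h)⟩ : Fin (n + 1)))
        else (.inl true, 0)) : (Bool ⊕ Bool) × Fin (n + 1)).2 : Fin (n + 1)) : ℕ))) =
        B ++ List.replicate (K - B.length) (.inl true, 0) := by
      apply List.ext_getElem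
      · simp
        omega
      · intro i h1 h2
        rw [List.getElem_ofFn, List.getElem_append]
        by_cases h : i < B.length
        · simp [h]
        · simp [h]
    rw [this, flat_append]
    have h0 : ∀ m : ℕ, flat (List.replicate m ((.inl true, 0) : (Bool ⊕ Bool) × ℕ)) = [] := by
      intro m
      induction m with
      | zero => rfl
      | succ m ih => rw [List.replicate_succ, flat_cons, ih]; rfl
    rw [h0, List.append_nil]
  have hfin : (Set.range f).Finite := Set.finite_range f
  refine ⟨hfin.subset hsub, (Set.ncard_le_ncard hsub hfin).trans ?_⟩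
  rw [← Set.image_univ]
  refine (Set.ncard_image_le (Set.toFinite _)).trans ?_
  rw [Set.ncard_univ, Nat.card_eq_fintype_card, Fintype.card_fun, Fintype.card_prod,
    Fintype.card_sum, Fintype.card_bool, Fintype.card_fin, Fintype.card_fin]

end Pool.Agent.Y36.PG
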