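import Pool.Agent.Y36.PG.Ext

/-!
# The bounded syllable property for the integral Heisenberg group
-/

set_option autoImplicit false

namespace Pool.Agent.Y36.PG

open Finset

/-- Splitting an integer along given bounds. -/
lemma int_decomp {ι : Type} [DecidableEq ι] (s : Finset ι) (b : ι → ℤ) (hb : ∀ i, 0 ≤ b i) :
    ∀ m : ℤ, |m| ≤ ∑ i ∈ s, b i → ∃ c : ι → ℤ, (∀ i, |c i| ≤ b i) ∧ ∑ i ∈ s, c i = m := by
  induction s using Finset.induction_on with
  | empty =>
    intro m hm
    refine ⟨fun _ => 0, fun i => by simpa using hb i, ?_⟩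
    have : m = 0 := by simpa using hm
    simp [this]
  | insert i s hi ih =>
    intro m hm
    rw [Finset.sum_insert hi] at hm
    set t : ℤ := max (- b i) (min m (b i)) with ht
    have h0 := hb i
    have hs : 0 ≤ ∑ i ∈ s, b i := Finset.sum_nonneg fun i _ => hb i
    rw [abs_le] at hm
    have h1 : |m - t| ≤ ∑ i ∈ s, b i := by
      rw [abs_le]
      constructor <;> omega
    obtain ⟨c, hc, hc'⟩ := ih (m - t) h1
    refine ⟨fun j => if j = i then t else c j, fun j => ?_, ?_⟩
    · by_cases hj : j = i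
      · subst hj
        simp only [if_true]
        rw [abs_le]
        constructor <;> omega
      · simpa [hj] using hc j
    · rw [Finset.sum_insert hi]
      simp only [if_true]
      rw [Finset.sum_congr rfl (g := c) (fun j hj => by
        have : j ≠ i := fun h => hi (h ▸ hj)
        simp [this]), hc']
      ring

/-- A path of integers with steps at most one starting at zero passes through everything. -/
lemma ivt (f : ℕ → ℤ) (h0 : f 0 = 0) (h1 : ∀ n, |f (n + 1) - f n| ≤ 1) (k : ℕ) :
    ∀ m : ℤ, |m| ≤ |f k| → ∃ k', f k' = m ∨ f k' = -m := by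
  induction k with
  | zero =>
    intro m hm
    rw [h0, abs_zero] at hm
    have : m = 0 := by simpa using hm
    exact ⟨0, by simp [h0, this]⟩
  | succ k ih =>
    intro m hm
    by_cases h : |m| ≤ |f k|
    · exact ih m h
    · push Not at h
      have h2 := h1 k
      refine ⟨k + 1, ?_⟩
      have h3 : |m| = |f (k + 1)| := by
        have := abs_sub_abs_le_abs_sub (f (k + 1)) (f k)
        omega
      rcases abs_eq_abs.1 h3 with h | h
      · exact Or.inl h.symm
      · right; omega

section

variable {Q α : Type} [Monoid Q] {v : α → Q}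

lemma val_take_succ (P : List α) (k : ℕ) : val v (P.take (k + 1)) = val v (P.take k) ∨
    ∃ x, val v (P.take (k + 1)) = val v (P.take k) * v x := by
  by_cases hk : k < P.length
  · right
    refine ⟨P[k], ?_⟩
    rw [List.take_add_one, List.getElem?_eq_getElem hk, val_append]
    simp
  · left
    push Not at hk
    rw [List.take_of_length_le hk, List.take_of_length_le (by omega)]

/-- Intermediate values of an integer coordinate are visited. -/
lemma vis_ivt (p : Q → ℤ) (h1 : p 1 = 0) (hp : ∀ g x, |p (g * v x) - p g| ≤ 1) (P : List α)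
    {h : Q} (hh : Vis v P h) (m : ℤ) (hm : |m| ≤ |p h|) :
    ∃ h', Vis v P h' ∧ (p h' = m ∨ p h' = -m) := by
  obtain ⟨k, rfl⟩ := hh
  obtain ⟨k', hk'⟩ := ivt (fun k => p (val v (P.take k))) (by simpa using h1) (by
    intro n
    rcases val_take_succ (v := v) P n with h | ⟨x, h⟩
    · simp [h]
    · simp only [h]
      exact hp _ _) k m hm
  exact ⟨_, ⟨k', rfl⟩, hk'⟩

lemma vis_take_flat (B : List (α × ℕ)) (l : ℕ) : Vis v (flat B) (val v (flat (B.take l))) := by
  refine ⟨(flat (B.take l)).length, ?_⟩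
  have hfl : flat B = flat (B.take l) ++ flat (B.drop l) := by
    rw [← flat_append, List.take_append_drop]
  rw [hfl, List.take_left' rfl]

variable {A : Type} [AddCommGroup A] {ρ : Q →* AddMonoid.End A} {e : A}

lemma InsSum.nsmul {P : List α} {L n : ℕ} {r : A} (hr : InsSum ρ e v P L n r) (m : ℕ) :
    InsSum ρ e v P L (m * n) (m • r) := by
  have := InsSum.sum (range m) (r := fun _ => r) (fun _ _ => hr)
  simpa using this

lemma InsSum.zsmul {P : List α} {L n : ℕ} {r : A} (hr : InsSum ρ e v P L n r) (m : ℕ) (z : ℤ)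
    (hz : |z| ≤ m) : InsSum ρ e v P L (m * n) (z • r) := by
  rcases le_total 0 z with h | h
  · obtain ⟨k, rfl⟩ := Int.eq_ofNat_of_zero_le h
    rw [abs_of_nonneg h] at hz
    have h2 : k ≤ m := by exact_mod_cast hz
    rw [natCast_zsmul]
    exact (hr.nsmul k).mono (by gcongr)
  · obtain ⟨k, hk⟩ := Int.eq_ofNat_of_zero_le (a := -z) (by omega)
    rw [abs_of_nonpos h, hk] at hz
    have h2 : k ≤ m := by exact_mod_cast hz
    have : z • r = - (k • r) := by
      rw [← natCast_zsmul, ← hk, neg_smul, neg_neg]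
    rw [this]
    exact ((hr.nsmul k).mono (by gcongr)).neg

/-- An additive function on the integers whose small values are bounded sums. -/
lemma InsSum.bounded {P : List α} {L n : ℕ} (ψ : ℤ →+ A) {ι : Type} [DecidableEq ι]
    (s : Finset ι) (b : ι → ℤ) (hb : ∀ i, 0 ≤ b i)
    (hψ : ∀ i ∈ s, ∀ m : ℤ, |m| ≤ b i → InsSum ρ e v P L n (ψ m)) (m : ℤ) (K : ℕ)
    (hm : |m| ≤ K * ∑ i ∈ s, b i) : InsSum ρ e v P L (s.card * (K * n)) (ψ m) := by
  obtain ⟨c, hc, hcm⟩ := int_decomp s (fun i => K * b i) (fun i => mul_nonneg (by omega) (hb i)) m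
    (by rwa [← Finset.mul_sum])
  rw [← hcm, map_sum]
  refine InsSum.sum s fun i hi => ?_
  obtain ⟨c', hc', hcm'⟩ := int_decomp (range K) (fun _ => b i) (fun _ => hb i) (c i)
    (by simpa using hc i)
  rw [← hcm', map_sum]
  have := InsSum.sum (range K) (r := fun j => ψ (c' j)) (fun j _ => hψ i hi (c' j) (hc' j))
  simpa using this

end

/-- The two letters of the infinite cyclic group. -/
def v₁ : Bool → Multiplicative ℤ
  | true => Multiplicative.ofAdd 1
  | false => Multiplicative.ofAdd (-1)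

lemma bsp₁ : BSP v₁ := by
  have h1 : ∀ W : List Bool, |(val v₁ W).toAdd| ≤ W.length := by
    intro W
    induction W with
    | nil => simp
    | cons x W ih =>
      rw [val_cons, toAdd_mul, List.length_cons]
      refine (abs_add_le _ _).trans ?_
      push_cast
      have : |(v₁ x).toAdd| = 1 := by cases x <;> simp [v₁]
      omega
  refine ⟨1, fun W => ?_⟩
  rcases le_total 0 (val v₁ W).toAdd with h | h
  · refine ⟨List.replicate (val v₁ W).toAdd.toNat true, ?_, ?_, Blk.replicate _ _⟩
    · rw [val_replicate]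
      apply Multiplicative.toAdd.injective
      rw [toAdd_pow]
      simp [v₁, h]
    · have := h1 W
      rw [abs_of_nonneg h] at this
      rw [List.length_replicate]
      omega
  · refine ⟨List.replicate (-(val v₁ W).toAdd).toNat false, ?_, ?_, Blk.replicate _ _⟩
    · rw [val_replicate]
      apply Multiplicative.toAdd.injective
      rw [toAdd_pow]
      simp [v₁, h]
    · have := h1 W
      rw [abs_of_nonpos h] at this
      rw [List.length_replicate]
      omega

/-- The action of the infinite cyclic group giving the Heisenberg group. -/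
def ρ₁ : Multiplicative ℤ →* AddMonoid.End (ℤ × ℤ) where
  toFun q :=
    { toFun := fun x => (x.1, x.2 + q.toAdd * x.1)
      map_zero' := by simp
      map_add' := fun x y => by ext <;> simp; ring }
  map_one' := by
    apply AddMonoidHom.ext
    intro x
    change (x.1, x.2 + 0 * x.1) = x
    ext <;> simp
  map_mul' q q' := by
    apply AddMonoidHom.ext
    intro x
    change (x.1, x.2 + (q * q').toAdd * x.1) =
      (x.1, x.2 + q'.toAdd * x.1 + q.toAdd * x.1)
    rw [toAdd_mul]
    ext
    · rfl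
    · change _ = _
      ring

lemma ρ₁_apply (q : Multiplicative ℤ) (x : ℤ × ℤ) :
    ρ₁ q x = (x.1, x.2 + q.toAdd * x.1) := rfl

/-- The embedding of `ℤ × ℤ` in `ℝ × ℝ`. -/
def φ₁ : ℤ × ℤ →+ ℝ × ℝ where
  toFun x := (x.1, x.2)
  map_zero' := by simp
  map_add' x y := by simp

lemma φ₁_apply (x : ℤ × ℤ) : φ₁ x = ((x.1 : ℝ), (x.2 : ℝ)) := rfl

/-- The unit vector. -/
def e₁ : ℤ × ℤ := (1, 0)

lemma rem₁ : Rem ρ₁ e₁ v₁ φ₁ := by
  refine ⟨1, fun K => ⟨(K + 1) * (K * 1) + (K + 1) * (K * 2), fun B hB r F hF hr => ?_⟩⟩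
  set q : ℕ → ℤ := fun l => (val v₁ (flat (B.take l))).toAdd with hq
  have hr1 : (r.1 : ℝ) = ∑ l ∈ range (B.length + 1), F l := by
    have := congrArg Prod.fst hr
    simpa [Prod.fst_sum, φ₁_apply, ρ₁_apply, e₁] using this
  have hr2 : (r.2 : ℝ) = ∑ l ∈ range (B.length + 1), F l * q l := by
    have := congrArg Prod.snd hr
    simpa [Prod.snd_sum, φ₁_apply, ρ₁_apply, e₁, hq] using this
  have hK : (B.length + 1 : ℕ) ≤ K + 1 := by omega
  have hin : ∀ l, ∀ m : ℤ, |m| ≤ |q l| → InsSum ρ₁ e₁ v₁ (flat B) 1 2 ((0, m) : ℤ × ℤ) := by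
    intro l m hm
    obtain ⟨h', hv, hh'⟩ := vis_ivt (v := v₁) (fun g : Multiplicative ℤ => g.toAdd) (by simp) (by
      intro g x
      cases x <;> simp [v₁]) (flat B) (vis_take_flat B l) m hm
    have key : ∀ h' : Multiplicative ℤ, Vis v₁ (flat B) h' →
        InsSum ρ₁ e₁ v₁ (flat B) 1 2 ((0, h'.toAdd) : ℤ × ℤ) := by
      intro h' hv
      have a1 := InsSum.one (L := 1) hv (cheap_e ρ₁ e₁ v₁ le_rfl)
      have a2 := InsSum.one (L := 1) (vis_one (v := v₁) (flat B)) (cheap_e ρ₁ e₁ v₁ le_rfl)
      have := a1.sub a2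
      simpa [ρ₁_apply, e₁] using this
    rcases hh' with hh' | hh'
    · have := key h' hv
      rwa [hh'] at this
    · have := (key h' hv).neg
      rw [hh'] at this
      simpa using this
  -- first coordinate
  have p1 : InsSum ρ₁ e₁ v₁ (flat B) 1 ((K + 1) * (K * 1)) (r.1 • e₁) := by
    have hb : |r.1| ≤ ((K + 1) * K : ℕ) := by
      have : |(r.1 : ℝ)| ≤ ((K + 1) * K : ℕ) := by
        rw [hr1]
        refine (Finset.abs_sum_le_sum_abs _ _).trans ?_
        refine (Finset.sum_le_sum (g := fun _ => (K : ℝ)) fun l _ => hF l).trans ?_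
        rw [Finset.sum_const, card_range, nsmul_eq_mul]
        push_cast
        gcongr
      exact_mod_cast this
    have a2 := InsSum.one (L := 1) (vis_one (v := v₁) (flat B)) (cheap_e ρ₁ e₁ v₁ le_rfl)
    rw [map_one] at a2
    have := a2.zsmul _ _ hb
    simpa [mul_assoc] using this
  -- second coordinate
  have p2 : InsSum ρ₁ e₁ v₁ (flat B) 1 ((K + 1) * (K * 2)) ((0, r.2) : ℤ × ℤ) := by
    have hb : |r.2| ≤ K * ∑ l ∈ range (B.length + 1), |q l| := by
      have : |(r.2 : ℝ)| ≤ K * ∑ l ∈ range (B.length + 1), |(q l : ℝ)| := by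
        rw [hr2, Finset.mul_sum]
        refine (Finset.abs_sum_le_sum_abs _ _).trans ?_
        refine Finset.sum_le_sum fun l _ => ?_
        rw [abs_mul]
        gcongr
        exact hF l
      exact_mod_cast this
    have := InsSum.bounded (ρ := ρ₁) (e := e₁) (v := v₁) (P := flat B) (L := 1) (n := 2)
      (AddMonoidHom.inr ℤ ℤ) (range (B.length + 1)) (fun l => |q l|) (fun _ => abs_nonneg _)
      (fun l _ m hm => hin l m hm) r.2 K hb
    refine this.mono ?_
    rw [card_range]
    gcongr
  have := p1.add p2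
  have e1 : r.1 • e₁ + ((0, r.2) : ℤ × ℤ) = r := by
    ext <;> simp [e₁]
  rwa [e1] at this

/-- The Heisenberg monoid. -/
abbrev Heis : Type := SD ρ₁

/-- Its letters. -/
def v₂ : Bool ⊕ Bool → Heis := vE ρ₁ e₁ v₁

lemma bsp₂ : BSP v₂ := ext_step ρ₁ e₁ v₁ φ₁ bsp₁ rem₁

end Pool.Agent.Y36.PG
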