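import Pool.Agent.Y36.PG.Heis

/-!
# The bounded syllable property for a nilpotent group of class three

`SD ρ₂` is the group generated by `1 + X₁`, `1 + X₂`, `1 + X₃` in the ring of noncommutative
polynomials modulo the monomials in which a variable occurs twice.
-/

set_option autoImplicit false

namespace Pool.Agent.Y36.PG

open Finset

/-- The abelian group `ℤ⁵`. -/
abbrev Z5 : Type := ℤ × ℤ × ℤ × ℤ × ℤ

/-- The real vector space `ℝ⁵`. -/
abbrev R5 : Type := ℝ × ℝ × ℝ × ℝ × ℝ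

/-- The action of an element with coordinates `p`, `b`, `q`. -/
def act (p b q : ℤ) : Z5 →+ Z5 where
  toFun x := (x.1, x.2.1 + p * x.1, x.2.2.1 + q * x.1,
    x.2.2.2.1 + p * x.2.2.1 + q * x.2.1 + p * q * x.1, x.2.2.2.2 + b * x.1 + q * x.2.1)
  map_zero' := by simp
  map_add' x y := by
    ext <;> simp <;> ring

/-- The coordinate `p`. -/
def cp (h : Heis) : ℤ := h.a.1
/-- The coordinate `b`. -/
def cb (h : Heis) : ℤ := h.a.2
/-- The coordinate `q`. -/
def cq (h : Heis) : ℤ := h.q.toAdd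

lemma cp_mul (g h : Heis) : cp (g * h) = cp g + cp h := rfl
lemma cb_mul (g h : Heis) : cb (g * h) = cb g + (cb h + cq g * cp h) := rfl
lemma cq_mul (g h : Heis) : cq (g * h) = cq g + cq h := rfl
@[simp] lemma cp_one : cp 1 = 0 := rfl
@[simp] lemma cb_one : cb 1 = 0 := rfl
@[simp] lemma cq_one : cq 1 = 0 := rfl

/-- The action of the Heisenberg group on `ℤ⁵`. -/
def ρ₂ : Heis →* AddMonoid.End Z5 where
  toFun h := act (cp h) (cb h) (cq h)
  map_one' := by
    apply AddMonoidHom.ext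
    intro x
    change act 0 0 0 x = x
    ext <;> simp [act]
  map_mul' g h := by
    apply AddMonoidHom.ext
    intro x
    change act _ _ _ x = act _ _ _ (act _ _ _ x)
    rw [cp_mul, cb_mul, cq_mul]
    simp only [act, AddMonoidHom.coe_mk, ZeroHom.coe_mk]
    ext
    · rfl
    · simp only
      ring
    · simp only
      ring
    · simp only
      ring
    · simp only
      ring

lemma ρ₂_apply (h : Heis) (x : Z5) : ρ₂ h x = (x.1, x.2.1 + cp h * x.1, x.2.2.1 + cq h * x.1,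
    x.2.2.2.1 + cp h * x.2.2.1 + cq h * x.2.1 + cp h * cq h * x.1,
    x.2.2.2.2 + cb h * x.1 + cq h * x.2.1) := rfl

/-- The embedding of `ℤ⁵` in `ℝ⁵`. -/
def φ₂ : Z5 →+ R5 where
  toFun x := (x.1, x.2.1, x.2.2.1, x.2.2.2.1, x.2.2.2.2)
  map_zero' := by simp
  map_add' x y := by simp

lemma φ₂_apply (x : Z5) : φ₂ x = ((x.1 : ℝ), (x.2.1 : ℝ), (x.2.2.1 : ℝ), (x.2.2.2.1 : ℝ),
    (x.2.2.2.2 : ℝ)) := rfl

/-- The unit vector. -/
def e₂ : Z5 := (1, 0, 0, 0, 0)

lemma u_apply (h : Heis) : ρ₂ h e₂ = (1, cp h, cq h, cp h * cq h, cb h) := by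
  rw [ρ₂_apply]
  simp [e₂]

/-- The sign of a letter of the first kind. -/
def sg : Bool ⊕ Bool → ℤ
  | .inl _ => 0
  | .inr true => 1
  | .inr false => -1

/-- The sign of a letter of the second kind. -/
def tg : Bool ⊕ Bool → ℤ
  | .inl true => 1
  | .inl false => -1
  | .inr _ => 0

lemma cp_v₂ (s : Bool ⊕ Bool) : cp (v₂ s) = sg s := by
  rcases s with (_ | _) | (_ | _) <;> simp [cp, v₂, sg, e₁]

lemma cq_v₂ (s : Bool ⊕ Bool) : cq (v₂ s) = tg s := by
  rcases s with (_ | _) | (_ | _) <;> simp [cq, v₂, tg, v₁]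

lemma cb_v₂ (s : Bool ⊕ Bool) : cb (v₂ s) = 0 := by
  rcases s with (_ | _) | (_ | _) <;> simp [cb, v₂, e₁]

lemma sg_mul_tg (s : Bool ⊕ Bool) : sg s * tg s = 0 := by
  rcases s with (_ | _) | (_ | _) <;> simp [sg, tg]

lemma abs_sg_le (s : Bool ⊕ Bool) : |sg s| ≤ 1 := by
  rcases s with (_ | _) | (_ | _) <;> simp [sg]

lemma abs_tg_le (s : Bool ⊕ Bool) : |tg s| ≤ 1 := by
  rcases s with (_ | _) | (_ | _) <;> simp [tg]

/-- The derivative of the orbit map in the direction of a letter. -/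
def wv (h : Heis) (s : Bool ⊕ Bool) : Z5 :=
  (0, sg s, tg s, sg s * cq h + tg s * cp h, sg s * cq h)

lemma cp_pow (s : Bool ⊕ Bool) (m : ℕ) : cp (v₂ s ^ m) = m * sg s := by
  induction m with
  | zero => simp
  | succ m ih =>
    rw [pow_succ, cp_mul, ih, cp_v₂]
    push_cast
    ring

lemma cq_pow (s : Bool ⊕ Bool) (m : ℕ) : cq (v₂ s ^ m) = m * tg s := by
  induction m with
  | zero => simp
  | succ m ih =>
    rw [pow_succ, cq_mul, ih, cq_v₂]
    push_cast
    ring

lemma cb_pow (s : Bool ⊕ Bool) (m : ℕ) : cb (v₂ s ^ m) = 0 := by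
  induction m with
  | zero => simp
  | succ m ih =>
    rw [pow_succ, cb_mul, ih, cb_v₂, cp_v₂, cq_pow]
    linear_combination (m : ℤ) * sg_mul_tg s

lemma u_mul_pow (h : Heis) (s : Bool ⊕ Bool) (m : ℕ) :
    ρ₂ (h * v₂ s ^ m) e₂ = ρ₂ h e₂ + (m : ℤ) • wv h s := by
  rw [u_apply, u_apply, cp_mul, cq_mul, cb_mul, cp_pow, cq_pow, cb_pow]
  simp only [wv]
  have := sg_mul_tg s
  ext
  · simp
  · simp
  · simp
  · simp only [Prod.snd_add, Prod.smul_snd, Prod.fst_add, Prod.smul_fst, smul_eq_mul]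
    linear_combination (m : ℤ) * m * this
  · simp only [Prod.snd_add, Prod.smul_snd, smul_eq_mul]
    ring

lemma telescope {V : Type} [AddCommGroup V] [Module ℝ V] (F : ℕ → ℝ) (U : ℕ → V) (n : ℕ) :
    ∑ l ∈ range (n + 1), F l • U l = (∑ l ∈ range (n + 1), F l) • U 0 +
      ∑ l ∈ range n, (∑ j ∈ Ico (l + 1) (n + 1), F j) • (U (l + 1) - U l) := by
  induction n with
  | zero => simp
  | succ n ih =>
    rw [Finset.sum_range_succ, ih, Finset.sum_range_succ (fun l => F l) (n + 1), add_smul,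
      Finset.sum_range_succ (fun l => (∑ j ∈ Ico (l + 1) (n + 1 + 1), F j) • (U (l + 1) - U l)) n]
    have h1 : ∑ l ∈ range n, (∑ j ∈ Ico (l + 1) (n + 1 + 1), F j) • (U (l + 1) - U l) =
        ∑ l ∈ range n, (∑ j ∈ Ico (l + 1) (n + 1), F j) • (U (l + 1) - U l) +
        F (n + 1) • (U n - U 0) := by
      rw [← Finset.sum_range_sub U n, Finset.smul_sum, ← Finset.sum_add_distrib]
      refine Finset.sum_congr rfl fun l hl => ?_
      rw [mem_range] at hl
      rw [Finset.sum_Ico_succ_top (by omega), add_smul]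
    rw [h1]
    have h2 : ∑ j ∈ Ico (n + 1) (n + 1 + 1), F j = F (n + 1) := by
      simp
    rw [h2, smul_sub, smul_sub]
    abel

/-- The word `p e p⁻¹ e⁻¹`. -/
lemma cheap_H : Cheap ρ₂ e₂ v₂ 4 ((0, 1, 0, 0, 0) : Z5) := by
  constructor
  · refine ⟨[.inl (.inr true), .inr true, .inl (.inr false), .inr false], ?_, by simp⟩
    simp only [val_cons, val_nil, mul_one, vE_inl, vE_true, vE_false]
    ext <;> simp [ρ₂_apply, e₂, v₂, cp, cq, cb, e₁]
  · refine ⟨[.inl (.inr true), .inr false, .inl (.inr false), .inr true], ?_, by simp⟩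
    simp only [val_cons, val_nil, mul_one, vE_inl, vE_true, vE_false]
    ext <;> simp [ρ₂_apply, e₂, v₂, cp, cq, cb, e₁]

/-- The word `q e q⁻¹ e⁻¹`. -/
lemma cheap_V : Cheap ρ₂ e₂ v₂ 4 ((0, 0, 1, 0, 0) : Z5) := by
  constructor
  · refine ⟨[.inl (.inl true), .inr true, .inl (.inl false), .inr false], ?_, by simp⟩
    simp only [val_cons, val_nil, mul_one, vE_inl, vE_true, vE_false]
    ext <;> simp [ρ₂_apply, e₂, v₂, cp, cq, cb, e₁, ρ₁_apply, v₁]
  · refine ⟨[.inl (.inl true), .inr false, .inl (.inl false), .inr true], ?_, by simp⟩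
    simp only [val_cons, val_nil, mul_one, vE_inl, vE_true, vE_false]
    ext <;> simp [ρ₂_apply, e₂, v₂, cp, cq, cb, e₁, ρ₁_apply, v₁]

lemma φ₂_zsmul (z : ℤ) (x : Z5) : φ₂ (z • x) = (z : ℝ) • φ₂ x := by
  rw [map_zsmul, Int.cast_smul_eq_zsmul]

lemma rem₂ : Rem ρ₂ e₂ v₂ φ₂ := by
  refine ⟨4, fun K => ⟨(K + 1) * K * 1 + K * (1 * (((K + 1) * K + 1) * 2)) + K * 1 + K * 1 +
    K * (1 * 2) + K * (1 * 2), fun B hB r F hF hr => ?_⟩⟩
  set K' : ℕ := (K + 1) * K + 1 with hK'
  set n := B.length with hn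
  set h : ℕ → Heis := fun l => val v₂ (flat (B.take l)) with hh
  set s : ℕ → Bool ⊕ Bool := fun l => (B.getD l (Sum.inl true, 0)).1 with hs
  set m : ℕ → ℕ := fun l => (B.getD l (Sum.inl true, 0)).2 with hm
  have hflat : ∀ l < n, flat B = flat (B.take l) ++
      (List.replicate (m l) (s l) ++ flat (B.drop (l + 1))) := by
    intro l hl
    conv_lhs => rw [← List.take_append_drop l B, flat_append, List.drop_eq_getElem_cons hl,
      flat_cons]
    simp [hm, hs, List.getD_eq_getElem?_getD, List.getElem?_eq_getElem hl]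
  have hstep : ∀ l < n, h (l + 1) = h l * v₂ (s l) ^ (m l) := by
    intro l hl
    simp only [hh]
    rw [List.take_add_one, List.getElem?_eq_getElem hl, flat_append, val_append]
    simp [hm, hs, List.getD_eq_getElem?_getD, List.getElem?_eq_getElem hl]
  have hvis : ∀ l < n, ∀ j ≤ m l, Vis v₂ (flat B) (h l * v₂ (s l) ^ j) := by
    intro l hl j hj
    refine ⟨(flat (B.take l)).length + j, ?_⟩
    rw [hflat l hl, List.take_append, List.take_of_length_le (by omega),
      Nat.add_sub_cancel_left, List.take_append_of_le_length (by simpa using hj),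
      List.take_replicate, min_eq_left hj, val_append, val_replicate]
  have hvis0 : ∀ l, Vis v₂ (flat B) (h l) := fun l => vis_take_flat B l
  have hw : ∀ l < n, ∀ z : ℤ, |z| ≤ m l →
      InsSum ρ₂ e₂ v₂ (flat B) 4 2 (z • wv (h l) (s l)) := by
    intro l hl z hz
    have key : ∀ j : ℕ, j ≤ m l →
        InsSum ρ₂ e₂ v₂ (flat B) 4 2 ((j : ℤ) • wv (h l) (s l)) := by
      intro j hj
      have a1 := InsSum.one (L := 4) (hvis l hl j hj) (cheap_e ρ₂ e₂ v₂ (by norm_num))
      have a2 := InsSum.one (L := 4) (hvis0 l) (cheap_e ρ₂ e₂ v₂ (by norm_num))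
      have := a1.sub a2
      rwa [u_mul_pow, add_sub_cancel_left] at this
    rcases le_total 0 z with h0 | h0
    · obtain ⟨j, rfl⟩ := Int.eq_ofNat_of_zero_le h0
      rw [abs_of_nonneg h0] at hz
      exact key j (by exact_mod_cast hz)
    · obtain ⟨j, hj⟩ := Int.eq_ofNat_of_zero_le (a := -z) (by omega)
      rw [abs_of_nonpos h0, hj] at hz
      have := (key j (by exact_mod_cast hz)).neg
      rwa [← hj, neg_smul, neg_neg] at this
  set S : ℕ → ℝ := fun l => ∑ j ∈ Ico (l + 1) (n + 1), F j with hS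
  have hSb : ∀ l, |S l| ≤ ((K + 1) * K : ℕ) := by
    intro l
    refine (Finset.abs_sum_le_sum_abs _ _).trans ?_
    refine (Finset.sum_le_sum (g := fun _ => (K : ℝ)) fun l _ => hF l).trans ?_
    rw [Finset.sum_const, Nat.card_Ico, nsmul_eq_mul]
    push_cast
    gcongr
    have : n - l ≤ K + 1 := by omega
    exact_mod_cast this
  set g : ℕ → ℤ := fun l => ⌊S l * m l⌋ with hg
  have hgb : ∀ l, |g l| ≤ K' * (m l : ℤ) := by
    intro l
    rcases Nat.eq_zero_or_pos (m l) with h0 | h0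
    · simp [hg, h0]
    · have h1 : |S l * m l| ≤ ((K + 1) * K : ℕ) * (m l : ℝ) := by
        rw [abs_mul, abs_of_nonneg (Nat.cast_nonneg (m l) : (0 : ℝ) ≤ m l)]
        gcongr
        exact hSb l
      have h2 : |(g l : ℝ)| ≤ ((K + 1) * K : ℕ) * (m l : ℝ) + 1 := by
        have e1 := Int.floor_le (S l * m l)
        have e2 := Int.lt_floor_add_one (S l * m l)
        rw [abs_le] at h1 ⊢
        constructor <;> simp only [hg] <;> linarith
      have h3 : (1 : ℝ) ≤ m l := by exact_mod_cast h0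
      have h4 : |(g l : ℝ)| ≤ K' * (m l : ℝ) := by
        rw [hK']
        push_cast at h2 ⊢
        linarith
      exact_mod_cast h4
  -- the integral part
  have hG : InsSum ρ₂ e₂ v₂ (flat B) 4 (K * (1 * (K' * 2)))
      (∑ l ∈ range n, g l • wv (h l) (s l)) := by
    have := InsSum.sum (range n) (ρ := ρ₂) (e := e₂) (v := v₂) (P := flat B) (L := 4)
      (n := 1 * (K' * 2)) (r := fun l => g l • wv (h l) (s l)) (by
        intro l hl
        rw [mem_range] at hl
        have := InsSum.bounded (ρ := ρ₂) (e := e₂) (v := v₂) (P := flat B) (L := 4) (n := 2)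
          (zmultiplesHom Z5 (wv (h l) (s l))) ({()} : Finset Unit) (fun _ => (m l : ℤ))
          (fun _ => by omega) (fun _ _ z hz => by
            rw [zmultiplesHom_apply]
            exact hw l hl z hz) (g l) K' (by simpa using hgb l)
        simpa using this)
    refine this.mono ?_
    rw [card_range]
    gcongr
  -- the first coordinate
  have hφ := telescope F (fun l => φ₂ (ρ₂ (h l) e₂)) n
  have hr' : φ₂ r = (∑ l ∈ range (n + 1), F l) • φ₂ e₂ +
      ∑ l ∈ range n, (S l * m l) • φ₂ (wv (h l) (s l)) := by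
    rw [hr, hφ]
    have h00 : h 0 = 1 := by simp [hh]
    refine congrArg₂ (· + ·) ?_ ?_
    · rw [h00, map_one]
      rfl
    · refine Finset.sum_congr rfl fun l hl => ?_
      rw [mem_range] at hl
      rw [← map_sub, hstep l hl, u_mul_pow, add_sub_cancel_left, φ₂_zsmul, smul_smul]
      simp [hS]
  have hr1 : (r.1 : ℝ) = ∑ l ∈ range (n + 1), F l := by
    have := congrArg Prod.fst hr
    simpa [Prod.fst_sum, φ₂_apply, u_apply] using this
  have p0 : InsSum ρ₂ e₂ v₂ (flat B) 4 ((K + 1) * K * 1) (r.1 • e₂) := by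
    have hb : |r.1| ≤ ((K + 1) * K : ℕ) := by
      have : |(r.1 : ℝ)| ≤ ((K + 1) * K : ℕ) := by
        rw [hr1]
        refine (Finset.abs_sum_le_sum_abs _ _).trans ?_
        refine (Finset.sum_le_sum (g := fun _ => (K : ℝ)) fun l _ => hF l).trans ?_
        rw [Finset.sum_const, card_range, nsmul_eq_mul]
        push_cast
        gcongr
      exact_mod_cast this
    have a2 := InsSum.one (L := 4) (vis_one (v := v₂) (flat B))
      (cheap_e ρ₂ e₂ v₂ (by norm_num))
    rw [map_one] at a2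
    exact a2.zsmul _ _ hb
  -- the remainder
  set t : Z5 := r - r.1 • e₂ - ∑ l ∈ range n, g l • wv (h l) (s l) with ht
  set ε : ℕ → ℝ := fun l => S l * m l - g l with hε
  have hε1 : ∀ l, |ε l| ≤ 1 := by
    intro l
    have e1 := Int.floor_le (S l * m l)
    have e2 := Int.lt_floor_add_one (S l * m l)
    simp only [hε, hg]
    rw [abs_le]
    constructor <;> linarith
  have hφt : φ₂ t = ∑ l ∈ range n, ε l • φ₂ (wv (h l) (s l)) := by
    rw [ht, map_sub, map_sub, hr', φ₂_zsmul, hr1, add_sub_cancel_left, map_sum,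
      ← Finset.sum_sub_distrib]
    refine Finset.sum_congr rfl fun l _ => ?_
    rw [φ₂_zsmul, ← sub_smul]
  have ht0 : t.1 = 0 := by
    rw [ht]
    simp [Prod.fst_sum, e₂, wv]
  have ht1 : (t.2.1 : ℝ) = ∑ l ∈ range n, ε l * sg (s l) := by
    have := congrArg (fun x => x.2.1) hφt
    simpa [Prod.fst_sum, Prod.snd_sum, φ₂_apply, wv] using this
  have ht2 : (t.2.2.1 : ℝ) = ∑ l ∈ range n, ε l * tg (s l) := by
    have := congrArg (fun x => x.2.2.1) hφt
    simpa [Prod.fst_sum, Prod.snd_sum, φ₂_apply, wv] using this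
  have ht3 : (t.2.2.2.1 : ℝ) =
      ∑ l ∈ range n, ε l * (sg (s l) * cq (h l) + tg (s l) * cp (h l)) := by
    have := congrArg (fun x => x.2.2.2.1) hφt
    simpa [Prod.fst_sum, Prod.snd_sum, φ₂_apply, wv] using this
  have ht4 : (t.2.2.2.2 : ℝ) = ∑ l ∈ range n, ε l * (sg (s l) * cq (h l)) := by
    have := congrArg (fun x => x.2.2.2.2) hφt
    simpa [Prod.fst_sum, Prod.snd_sum, φ₂_apply, wv] using this
  have hbound : ∀ (c : ℕ → ℝ) (b : ℕ → ℝ), (∀ l, |c l| ≤ b l) →
      |∑ l ∈ range n, ε l * c l| ≤ ∑ l ∈ range n, b l := by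
    intro c b hcb
    refine (Finset.abs_sum_le_sum_abs _ _).trans (Finset.sum_le_sum fun l _ => ?_)
    rw [abs_mul]
    have := hε1 l
    have h2 := hcb l
    have h3 := abs_nonneg (c l)
    nlinarith [abs_nonneg (ε l)]
  have hsgR : ∀ l, |((sg (s l) : ℤ) : ℝ)| ≤ 1 := fun l => by exact_mod_cast abs_sg_le (s l)
  have htgR : ∀ l, |((tg (s l) : ℤ) : ℝ)| ≤ 1 := fun l => by exact_mod_cast abs_tg_le (s l)
  have hnK : (n : ℝ) ≤ K := by exact_mod_cast hB
  have p1 : InsSum ρ₂ e₂ v₂ (flat B) 4 (K * 1) (t.2.1 • ((0, 1, 0, 0, 0) : Z5)) := by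
    have hb : |t.2.1| ≤ (K : ℤ) := by
      have : |(t.2.1 : ℝ)| ≤ K := by
        rw [ht1]
        refine (hbound _ (fun _ => 1) hsgR).trans ?_
        simpa using hnK
      exact_mod_cast this
    have a2 := InsSum.one (L := 4) (vis_one (v := v₂) (flat B)) cheap_H
    rw [map_one] at a2
    exact a2.zsmul _ _ hb
  have p2 : InsSum ρ₂ e₂ v₂ (flat B) 4 (K * 1) (t.2.2.1 • ((0, 0, 1, 0, 0) : Z5)) := by
    have hb : |t.2.2.1| ≤ (K : ℤ) := by
      have : |(t.2.2.1 : ℝ)| ≤ K := by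
        rw [ht2]
        refine (hbound _ (fun _ => 1) htgR).trans ?_
        simpa using hnK
      exact_mod_cast this
    have a2 := InsSum.one (L := 4) (vis_one (v := v₂) (flat B)) cheap_V
    rw [map_one] at a2
    exact a2.zsmul _ _ hb
  -- small central elements
  have hinq : ∀ l, ∀ z : ℤ, |z| ≤ |cq (h l)| →
      InsSum ρ₂ e₂ v₂ (flat B) 4 2 ((0, 0, 0, z, z) : Z5) := by
    intro l z hz
    obtain ⟨h', hv, hh'⟩ := vis_ivt (v := v₂) cq cq_one (by
      intro g x
      rw [cq_mul, add_sub_cancel_left, cq_v₂]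
      exact abs_tg_le x) (flat B) (hvis0 l) z hz
    have key : ∀ h' : Heis, Vis v₂ (flat B) h' →
        InsSum ρ₂ e₂ v₂ (flat B) 4 2 ((0, 0, 0, cq h', cq h') : Z5) := by
      intro h' hv
      have a1 := InsSum.one (L := 4) hv cheap_H
      have a2 := InsSum.one (L := 4) (vis_one (v := v₂) (flat B)) cheap_H
      have := a1.sub a2
      simpa [ρ₂_apply] using this
    rcases hh' with hh' | hh'
    · have := key h' hv
      rwa [hh'] at this
    · have := (key h' hv).neg
      rw [hh'] at this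
      simpa using this
  have hinp : ∀ l, ∀ z : ℤ, |z| ≤ |cp (h l)| →
      InsSum ρ₂ e₂ v₂ (flat B) 4 2 ((0, 0, 0, z, 0) : Z5) := by
    intro l z hz
    obtain ⟨h', hv, hh'⟩ := vis_ivt (v := v₂) cp cp_one (by
      intro g x
      rw [cp_mul, add_sub_cancel_left, cp_v₂]
      exact abs_sg_le x) (flat B) (hvis0 l) z hz
    have key : ∀ h' : Heis, Vis v₂ (flat B) h' →
        InsSum ρ₂ e₂ v₂ (flat B) 4 2 ((0, 0, 0, cp h', 0) : Z5) := by
      intro h' hv
      have a1 := InsSum.one (L := 4) hv cheap_V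
      have a2 := InsSum.one (L := 4) (vis_one (v := v₂) (flat B)) cheap_V
      have := a1.sub a2
      simpa [ρ₂_apply] using this
    rcases hh' with hh' | hh'
    · have := key h' hv
      rwa [hh'] at this
    · have := (key h' hv).neg
      rw [hh'] at this
      simpa using this
  have p4 : InsSum ρ₂ e₂ v₂ (flat B) 4 (K * (1 * 2))
      ((0, 0, 0, t.2.2.2.2, t.2.2.2.2) : Z5) := by
    have hb : |t.2.2.2.2| ≤ (1 : ℕ) * ∑ l ∈ range n, |cq (h l)| := by
      have : |(t.2.2.2.2 : ℝ)| ≤ ∑ l ∈ range n, |(cq (h l) : ℝ)| := by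
        rw [ht4]
        refine hbound _ _ fun l => ?_
        rw [abs_mul]
        nlinarith [hsgR l, abs_nonneg (cq (h l) : ℝ)]
      rw [Nat.cast_one, one_mul]
      exact_mod_cast this
    have := InsSum.bounded (ρ := ρ₂) (e := e₂) (v := v₂) (P := flat B) (L := 4) (n := 2)
      ({ toFun := fun z => (0, 0, 0, z, z), map_zero' := rfl, map_add' := fun _ _ => rfl } :
        ℤ →+ Z5) (range n) (fun l => |cq (h l)|) (fun _ => abs_nonneg _)
      (fun l _ z hz => hinq l z hz) t.2.2.2.2 1 hb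
    refine this.mono ?_
    rw [card_range]
    gcongr
  have p3 : InsSum ρ₂ e₂ v₂ (flat B) 4 (K * (1 * 2))
      ((0, 0, 0, t.2.2.2.1 - t.2.2.2.2, 0) : Z5) := by
    have hb : |t.2.2.2.1 - t.2.2.2.2| ≤ (1 : ℕ) * ∑ l ∈ range n, |cp (h l)| := by
      have : |(t.2.2.2.1 : ℝ) - (t.2.2.2.2 : ℝ)| ≤ ∑ l ∈ range n, |(cp (h l) : ℝ)| := by
        rw [ht3, ht4, ← Finset.sum_sub_distrib]
        rw [Finset.sum_congr rfl (g := fun l => ε l * (tg (s l) * cp (h l)))
          (fun l _ => by ring)]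
        refine hbound _ _ fun l => ?_
        rw [abs_mul]
        nlinarith [htgR l, abs_nonneg (cp (h l) : ℝ)]
      rw [Nat.cast_one, one_mul]
      exact_mod_cast this
    have := InsSum.bounded (ρ := ρ₂) (e := e₂) (v := v₂) (P := flat B) (L := 4) (n := 2)
      ({ toFun := fun z => (0, 0, 0, z, 0), map_zero' := rfl, map_add' := fun _ _ => rfl } :
        ℤ →+ Z5) (range n) (fun l => |cp (h l)|) (fun _ => abs_nonneg _)
      (fun l _ z hz => hinp l z hz) (t.2.2.2.1 - t.2.2.2.2) 1 hb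
    refine this.mono ?_
    rw [card_range]
    gcongr
  have hfin := ((((p0.add hG).add p1).add p2).add p4).add p3
  have hrt : r = r.1 • e₂ + ∑ l ∈ range n, g l • wv (h l) (s l) + t := by
    rw [ht]
    abel
  have htt : t = t.2.1 • ((0, 1, 0, 0, 0) : Z5) + t.2.2.1 • ((0, 0, 1, 0, 0) : Z5) +
      ((0, 0, 0, t.2.2.2.2, t.2.2.2.2) : Z5) + ((0, 0, 0, t.2.2.2.1 - t.2.2.2.2, 0) : Z5) := by
    ext <;> simp [ht0]
  have hall : r.1 • e₂ + ∑ l ∈ range n, g l • wv (h l) (s l) +
      t.2.1 • ((0, 1, 0, 0, 0) : Z5) + t.2.2.1 • ((0, 0, 1, 0, 0) : Z5) +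
      ((0, 0, 0, t.2.2.2.2, t.2.2.2.2) : Z5) +
      ((0, 0, 0, t.2.2.2.1 - t.2.2.2.2, 0) : Z5) = r := by
    conv_rhs => rw [hrt, htt]
    simp only [add_assoc]
  rw [hall] at hfin
  exact hfin

/-- The letters of the group of class three. -/
def v₃ : (Bool ⊕ Bool) ⊕ Bool → SD ρ₂ := vE ρ₂ e₂ v₂

lemma bsp₃ : BSP v₃ := ext_step ρ₂ e₂ v₂ φ₂ bsp₂ rem₂

end Pool.Agent.Y36.PG
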